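import Pool.Agent.H458.RC.Cnt

/-!
# Ramified primes
-/

set_option autoImplicit false
set_option linter.all false

open Polynomial IsDedekindDomain NumberField
open Pool.Agent.N783.PF (Ov)
open Pool.Agent.N874.TF (Unr Spl)
open scoped Classical

namespace Pool.Agent.H458.RC

variable {F M : Type} [Field F] [NumberField F] [Field M] [NumberField M] [Algebra F M]

/-- Only finitely many primes are ramified. -/
theorem ram_fin (F M : Type) [Field F] [NumberField F] [Field M] [NumberField M] [Algebra F M] :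
    ∃ T : Finset (HeightOneSpectrum (𝓞 F)), ∀ v ∉ T, ∀ w : HeightOneSpectrum (𝓞 M),
      v.asIdeal.map (algebraMap (𝓞 F) (𝓞 M)) ≤ w.asIdeal →
      ¬ v.asIdeal.map (algebraMap (𝓞 F) (𝓞 M)) ≤ w.asIdeal ^ 2 := by
  obtain ⟨m, hm⟩ : ∃ m : ℕ, m = ((discr M).natAbs).factorial := ⟨_, rfl⟩
  have hm0 : m ≠ 0 := by
    rw [hm]
    exact Nat.factorial_ne_zero _
  have hne : Ideal.span {(m : 𝓞 F)} ≠ 0 := by
    rw [Ne, Ideal.zero_eq_bot, Ideal.span_singleton_eq_bot]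
    exact_mod_cast hm0
  have hfin := Ideal.finite_factors hne
  refine ⟨hfin.toFinset, fun v hv w hw hw2 => ?_⟩
  rw [Set.Finite.mem_toFinset, Set.mem_setOf_eq, Ideal.dvd_span_singleton] at hv
  obtain ⟨p, hp, hpv⟩ := Pool.Agent.N874.TF.exists_nat v
  have hlt : (discr M).natAbs < p := by
    by_contra hle
    apply hv
    obtain ⟨b, hb⟩ := (hp.dvd_factorial).2 (not_lt.1 hle)
    rw [hm, hb, Nat.cast_mul]
    exact Ideal.mul_mem_right _ _ hpv
  have h1 : ((p : ℕ) : 𝓞 M) ∈ w.asIdeal ^ 2 := by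
    have h2 := hw2 (Ideal.mem_map_of_mem (algebraMap (𝓞 F) (𝓞 M)) hpv)
    rwa [map_natCast] at h2
  exact Pool.Agent.N710.PF.not_mem_sq hp hlt w.isPrime h1

/-- Unramified primes in terms of ideals. -/
theorem unr_to {v : HeightOneSpectrum (𝓞 F)} (h : Unr v M) (w : HeightOneSpectrum (𝓞 M))
    (hw : v.asIdeal.map (algebraMap (𝓞 F) (𝓞 M)) ≤ w.asIdeal) :
    ¬ v.asIdeal.map (algebraMap (𝓞 F) (𝓞 M)) ≤ w.asIdeal ^ 2 := by
  intro h2
  obtain ⟨π, hπ⟩ := v.intValuation_exists_uniformizer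
  have hv : v.valuation F (π : F) = WithZero.exp (-1 : ℤ) := by
    rw [← hπ]
    exact HeightOneSpectrum.valuation_of_algebraMap v π
  have hmem : π ∈ v.asIdeal := by
    rw [← HeightOneSpectrum.valuation_lt_one_iff_mem (K := F)]
    change v.valuation F (π : F) < 1
    rw [hv, ← WithZero.exp_zero, WithZero.exp_lt_exp]
    norm_num
  have h3 := h w (Ideal.map_le_iff_le_comap.1 hw) (π : F)
  have h4 : algebraMap (𝓞 F) (𝓞 M) π ∈ w.asIdeal ^ 2 := h2 (Ideal.mem_map_of_mem _ hmem)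
  have h5 := (w.intValuation_le_pow_iff_mem (algebraMap (𝓞 F) (𝓞 M) π) 2).2 h4
  rw [← HeightOneSpectrum.valuation_of_algebraMap (K := M)] at h5
  have e : algebraMap (𝓞 M) M (algebraMap (𝓞 F) (𝓞 M) π) = algebraMap F M (π : F) := rfl
  change w.valuation M (algebraMap (𝓞 M) M (algebraMap (𝓞 F) (𝓞 M) π)) ≤ _ at h5
  rw [e, h3, hv, WithZero.exp_le_exp] at h5
  norm_num at h5

/-- Complete splitting in terms of ideals. -/
theorem spl_to {v : HeightOneSpectrum (𝓞 F)} (h : Spl v M) (w : HeightOneSpectrum (𝓞 M))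
    (hw : v.asIdeal.map (algebraMap (𝓞 F) (𝓞 M)) ≤ w.asIdeal) (y : 𝓞 M) :
    ∃ c : 𝓞 F, y - algebraMap (𝓞 F) (𝓞 M) c ∈ w.asIdeal := by
  obtain ⟨c, hc⟩ := h.2 w (Ideal.map_le_iff_le_comap.1 hw) (Ideal.Quotient.mk w.asIdeal y)
  exact ⟨c, Ideal.Quotient.eq.1 hc.symm⟩

end Pool.Agent.H458.RC
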