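import Pool.Agent.H458.RC.Exs
import Pool.Graph.R_pool_sql_team_seeded_63374d34.N874.TF.Fld
import Pool.Graph.R_pool_sql_team_seeded_63374d34.N615.TF.One

/-!
# The 2-Selmer group over the extension, without conditions at the real places

After `N874/TF/Abs.lean` and `N874/TC/Abs.lean` (helper874).
-/

set_option autoImplicit false
set_option linter.all false

open Polynomial IsDedekindDomain NumberField
open Pool.Agent.N874.PP (Ev Sq1 U0)
open Pool.Agent.N874.PM (Lies ev_down sq_down ev_sq ev_mul)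
open Pool.Agent.N874.JM (LocF)
open Pool.Agent.N783.PF (Ov IsGen fF GoodS SqF Cg rd sp)
open Pool.Agent.N783.PQ (LocIm)
open Pool.Agent.N891.PQ (exists_below not_ev_exp)
open Pool.Agent.N874.QM (locIm_sq locIm_congr locIm_map)
open Pool.Agent.N874.TF
open scoped Classical IntermediateField

namespace Pool.Agent.H458.RC

section norm

theorem repr_mk {K : Type} [Field K] {f : K[X]} (hm : f.Monic) {n : ℕ}
    (hd : (AdjoinRoot.powerBasis' hm).dim = n) (p : K[X]) (i : Fin n) :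
    ((AdjoinRoot.powerBasis' hm).basis.reindex (finCongr hd)).repr (AdjoinRoot.mk f p) i =
      (p %ₘ f).coeff i := by
  rw [Module.Basis.repr_reindex_apply]
  refine (AdjoinRoot.powerBasisAux'_repr_apply_to_fun hm _ _).trans ?_
  rw [AdjoinRoot.modByMonicHom_mk]
  rfl

theorem basis_mk {K : Type} [Field K] {f : K[X]} (hm : f.Monic) {n : ℕ}
    (hd : (AdjoinRoot.powerBasis' hm).dim = n) (j : Fin n) :
    ((AdjoinRoot.powerBasis' hm).basis.reindex (finCongr hd)) j = AdjoinRoot.mk f (X ^ (j : ℕ)) := by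
  rw [Module.Basis.reindex_apply, PowerBasis.basis_eq_pow, AdjoinRoot.powerBasis'_gen, map_pow, AdjoinRoot.mk_X]
  rfl

/-- The norm and homomorphisms of the base field. -/
theorem norm_map {K E : Type} [Field K] [Field E] (φ : K →+* E) {f : K[X]} (hm : f.Monic)
    (h : K[X]) : Algebra.norm E (AdjoinRoot.mk (f.map φ) (h.map φ)) =
      φ (Algebra.norm K (AdjoinRoot.mk f h)) := by
  have hm' : (f.map φ).Monic := hm.map φ
  have hd1 : (AdjoinRoot.powerBasis' hm).dim = f.natDegree := AdjoinRoot.powerBasis'_dim hm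
  have hd2 : (AdjoinRoot.powerBasis' hm').dim = f.natDegree := by
    rw [AdjoinRoot.powerBasis'_dim hm', hm.natDegree_map φ]
  rw [Algebra.norm_eq_matrix_det ((AdjoinRoot.powerBasis' hm).basis.reindex (finCongr hd1)),
    Algebra.norm_eq_matrix_det ((AdjoinRoot.powerBasis' hm').basis.reindex (finCongr hd2)),
    RingHom.map_det]
  congr 1
  ext i j
  rw [RingHom.mapMatrix_apply, Matrix.map_apply, Algebra.leftMulMatrix_eq_repr_mul,
    Algebra.leftMulMatrix_eq_repr_mul, basis_mk, basis_mk, ← map_mul, ← map_mul, repr_mk, repr_mk,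
    ← Polynomial.coeff_map, Polynomial.map_modByMonic _ hm, Polynomial.map_mul, Polynomial.map_pow,
    Polynomial.map_X]

end norm

section real

variable {F L : Type} [Field F] [NumberField F] [Field L] [NumberField L] [Algebra F L]

/-- The local condition at a real place. -/
theorem real_locIm {g : ℕ} {f : (𝓞 F)[X]} {θ : L} (hc : IsGen g f θ)
    (hirr : Irreducible (fF f)) (hmo : Mono f) (ρ : F →+* ℝ) (h₀ : F[X]) (h1 : aeval θ h₀ ≠ 0)
    (h2 : IsSquare (Algebra.norm F (aeval θ h₀))) :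
    LocIm ℝ ((fF f).map ρ) (h₀.map ρ) := by
  have hm : (fF f).Monic := hc.mon.map _
  have hd : (fF f).natDegree = 2 * g + 1 := by
    rw [fF, hc.mon.natDegree_map, hc.deg]
  have hsqf : Squarefree ((fF f).map ρ) := (hirr.separable.map (f := ρ)).squarefree
  have hcop : IsCoprime (h₀.map ρ) ((fF f).map ρ) := by
    have h3 : IsCoprime (fF f) h₀ := by
      refine (hirr.coprime_iff_not_dvd).2 fun hd => h1 ?_
      obtain ⟨k, hk⟩ := hd
      rw [hk, map_mul, hc.root, zero_mul]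
    have h4 := (h3.map (Polynomial.mapRingHom ρ)).symm
    rw [Polynomial.coe_mapRingHom] at h4
    exact h4
  obtain ⟨e, he⟩ := adj_equiv hirr hm hc.root (by rw [hc.rank, hd]) (by rw [hd]; omega)
  obtain ⟨s, hs⟩ := Pool.Agent.N615.TF.one g ((fF f).map ρ) (h₀.map ρ) (hm.map _) (by
    rw [hm.natDegree_map, hd]) (hmo ρ) hsqf hcop (by
    rw [norm_map ρ hm]
    refine IsSquare.map ρ ?_
    rw [← he, Algebra.norm_eq_of_algEquiv] at h2
    exact h2)
  exact ⟨[], s, fun p hp => absurd hp (List.not_mem_nil), by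
    rw [List.map_nil, List.prod_nil, mul_one]
    exact hs⟩

end real

section down

variable {F M Ω : Type} [Field F] [NumberField F] [Field M] [NumberField M] [Field Ω]
  [NumberField Ω] [Algebra F M] [Algebra F Ω] [Algebra M Ω] [IsScalarTower F M Ω]

/-- From the conditions over the extension to the local conditions at the primes over 2. -/
theorem arc_down' {f : (𝓞 F)[X]} {L : Type} [Field L] [NumberField L] [Algebra F L] [Algebra L Ω]
    [IsScalarTower F L Ω] {θ x : L} {g : ℕ} (hc : IsGen g f θ)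
    (hmin : minpoly M (algebraMap L Ω θ) = fM M f)
    (h2M : ∀ v : HeightOneSpectrum (𝓞 F), (2 : 𝓞 F) ∈ v.asIdeal →
      ∃ σ : M →+* v.adicCompletion F, ∀ y : F, σ (algebraMap F M y) =
        algebraMap F (v.adicCompletion F) y)
    (h : Arc M f (algebraMap L Ω θ) (algebraMap L Ω x)) :
    ∃ h₀ : F[X], aeval θ h₀ = x ∧
      (∀ w : HeightOneSpectrum (𝓞 F), (2 : 𝓞 F) ∈ w.asIdeal →
        LocF (w.adicCompletion F) (fF f) h₀) := by
  obtain ⟨a, ha, a1, a2⟩ := h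
  obtain ⟨c, hx⟩ := hc.gen x
  obtain ⟨h₀, hh₀⟩ : ∃ h₀ : F[X], h₀ = ∑ i, C (c i) * X ^ (i : ℕ) := ⟨_, rfl⟩
  have h1 : aeval θ h₀ = x := by
    rw [hh₀, map_sum, hx]
    refine Finset.sum_congr rfl fun i _ => ?_
    rw [map_mul, map_pow, aeval_X, aeval_C]
  have h2 : fM M f ∣ a - h₀.map (algebraMap F M) := by
    rw [← hmin]
    apply minpoly.dvd
    rw [map_sub, ha, aeval_map_algebraMap, aeval_algebraMap_apply, h1, sub_self]
  have key : ∀ (E : Type) [Field E] (ρ : M →+* E),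
      LocIm E ((fM M f).map ρ) (a.map ρ) →
      LocIm E ((fM M f).map ρ) ((h₀.map (algebraMap F M)).map ρ) := by
    intro E _ ρ H
    refine locIm_congr ?_ H
    have h3 := Polynomial.map_dvd ρ h2
    rw [Polynomial.map_sub] at h3
    exact h3
  refine ⟨h₀, h1, fun w hw => ?_⟩
  obtain ⟨σ, hσ⟩ := h2M w hw
  have e : σ.comp (algebraMap F M) = algebraMap F (w.adicCompletion F) := RingHom.ext hσ
  have h3 := key _ σ (by
    rw [fM_map, e]
    exact a1 w hw σ hσ)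
  rw [fM_map, show (h₀.map (algebraMap F M)).map σ = h₀.map (σ.comp (algebraMap F M)) from
    Polynomial.map_map _ _ _, e] at h3
  exact h3

end down

section abs

variable {F L M Ω : Type} [Field F] [NumberField F] [Field L] [NumberField L]
  [Field M] [NumberField M] [Field Ω] [NumberField Ω] [Algebra F L] [Algebra F M] [Algebra F Ω]
  [Algebra L Ω] [Algebra M Ω] [IsScalarTower F L Ω] [IsScalarTower F M Ω] [IsGalois F M]

theorem selM_abs (H : Parts) {g W : ℕ} {f : (𝓞 F)[X]} {θ : L} {S J : Finset ℕ}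
    {𝔮 : ℕ → Ideal (𝓞 F)} {s P : ℕ → (𝓞 F)[X]}
    (hg : 1 ≤ g) (hc : IsGen g f θ) (hsq : SqF g f) (hS : GoodS g W S 𝔮 s P)
    (hcon : ∀ q ∈ S, Cg (sp F q) f (P q))
    (h2i : ∀ v : HeightOneSpectrum (𝓞 F), (2 : 𝓞 F) ∈ v.asIdeal → Irreducible (rd v.asIdeal f))
    (hQs : ∀ q ∈ S, ∀ v : HeightOneSpectrum (𝓞 F), v.asIdeal = 𝔮 q → Spl v M)
    (hPr : ∀ v : HeightOneSpectrum (𝓞 F), ¬ Unr v M → Irreducible (rd v.asIdeal f))
    (hJ : J ⊆ S)
    (hθ : M⟮algebraMap L Ω θ⟯ = ⊤)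
    (hmin : minpoly M (algebraMap L Ω θ) = fM M f)
    (h2M : ∀ v : HeightOneSpectrum (𝓞 F), (2 : 𝓞 F) ∈ v.asIdeal →
      ∃ σ : M →+* v.adicCompletion F, ∀ y : F, σ (algebraMap F M y) =
        algebraMap F (v.adicCompletion F) y)
    (hmo : Mono f) (hirr : Irreducible (fF f))
    {n : ℕ} (hM : Module.finrank F M = 2 ^ n) (hΩ : Module.finrank M Ω = 2 * g + 1)
    (hsel : ∀ h : F[X], aeval θ h ≠ 0 → IsSquare (Algebra.norm F (aeval θ h)) →
      (∀ 𝔓 : HeightOneSpectrum (𝓞 L), (∀ q ∈ J, Ov (𝔮 q) 𝔓 → 𝔓.valuation L θ ≠ 1) →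
        Ev 𝔓 (aeval θ h)) →
      (∀ q ∈ J, ∀ 𝔓 : HeightOneSpectrum (𝓞 L), Ov (𝔮 q) 𝔓 → 𝔓.valuation L θ = 1 →
        U0 𝔓 ((q : L) * θ) (aeval θ h)) →
      (∀ w : HeightOneSpectrum (𝓞 F), (2 : 𝓞 F) ∈ w.asIdeal →
        LocF (w.adicCompletion F) (fF f) h) →
      (∀ σ : F →+* ℝ, LocIm ℝ ((fF f).map σ) (h.map σ)) → IsSquare (aeval θ h))
    (h : M[X]) (hne : aeval (((∏ q ∈ J, q : ℕ) : Ω) * algebraMap L Ω θ) h ≠ 0)
    (hN : IsSquare (Algebra.norm M (aeval (((∏ q ∈ J, q : ℕ) : Ω) * algebraMap L Ω θ) h)))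
    (hloc : ∀ w : HeightOneSpectrum (𝓞 M), LocF (w.adicCompletion M)
      ((fM M f).scaleRoots ((∏ q ∈ J, q : ℕ) : M)) h)
    (hr : ∀ ρ : M →+* ℝ, LocIm ℝ
      (((fM M f).scaleRoots ((∏ q ∈ J, q : ℕ) : M)).map ρ) (h.map ρ)) :
    IsSquare (aeval (((∏ q ∈ J, q : ℕ) : Ω) * algebraMap L Ω θ) h) := by
  have hS' : ∀ q ∈ S, q.Prime := fun q hq => (hS q hq).1
  have hqq : ∀ q ∈ S, (q : 𝓞 F) ∈ 𝔮 q := fun q hq => (hS q hq).2.2.2.2.2.2.1
  have hpr : ∀ q ∈ S, (𝔮 q).IsPrime := fun q hq => (hS q hq).2.2.2.2.2.1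
  have hq0 : ∀ q ∈ S, 𝔮 q ≠ ⊥ := by
    intro q hq h0
    have h1 := hqq q hq
    rw [h0, Ideal.mem_bot] at h1
    exact (hS' q hq).ne_zero (by exact_mod_cast h1)
  have hcon' : ∀ q ∈ S, Cg (𝔮 q) f (X * s q) := by
    intro q hq j
    have h1 : f.coeff j - (P q).coeff j ∈ 𝔮 q :=
      Pool.Agent.N78.PF.sp_le (hqq q hq) (hcon q hq j)
    have h2 : (P q).coeff j - (X * s q).coeff j ∈ 𝔮 q := (hS q hq).2.2.2.2.2.2.2.2.2.2.2.2.2.1 j
    have e : f.coeff j - (X * s q).coeff j =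
        (f.coeff j - (P q).coeff j) + ((P q).coeff j - (X * s q).coeff j) := by ring
    rw [e]
    exact Ideal.add_mem _ h1 h2
  have hD8 : (∏ q ∈ J, q) % 8 = 1 := by
    have : ∀ J' : Finset ℕ, J' ⊆ S → (∏ q ∈ J', q) % 8 = 1 := by
      intro J'
      induction J' using Finset.induction_on with
      | empty => intro _; simp
      | insert a t ha ih =>
        intro hsub
        rw [Finset.prod_insert ha, Nat.mul_mod, ih ((Finset.subset_insert _ _).trans hsub),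
          (hS a (hsub (Finset.mem_insert_self _ _))).2.2.2.1]
    exact this J hJ
  -- the primes modulo which `f` is irreducible
  let T : Set (Ideal (𝓞 F)) := {𝔭 | (𝔭.IsPrime ∧ 𝔭 ≠ ⊥) ∧ Irreducible (rd 𝔭 f)}
  have hTm : ∀ 𝔭 ∈ T, 𝔭.IsPrime ∧ 𝔭 ≠ ⊥ := fun 𝔭 h => h.1
  have h2T : ∀ v : HeightOneSpectrum (𝓞 F), (2 : 𝓞 F) ∈ v.asIdeal → v.asIdeal ∈ T :=
    fun v hv => ⟨⟨v.isPrime, v.ne_bot⟩, h2i v hv⟩
  have hST : ∀ q ∈ S, ∀ v : HeightOneSpectrum (𝓞 F), (q : 𝓞 F) ∈ v.asIdeal →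
      v.asIdeal ≠ 𝔮 q → v.asIdeal ∈ T := by
    intro q hq v hqv hne
    refine ⟨⟨v.isPrime, v.ne_bot⟩, ?_⟩
    rw [Pool.Agent.N78.PF.rd_eq (Pool.Agent.N78.PF.sp_le hqv) (hcon q hq)]
    exact (hS q hq).2.2.2.2.2.2.2.2.2.2.2.2.2.2 v.asIdeal v.isPrime hqv hne
  have hcnd := cnd_top (T := T) H.csq H.lie H.loc1 H.loc2 hg hc hsq hS hcon' hθ hQs
    h2T hST hJ hloc hne
  have harc := arc_top (θ := algebraMap L Ω θ) H.emb H.sqt hc.mon hc.deg hD8 hloc hr
  have hgen : ∀ y : Ω, ∃ a : M[X], aeval (algebraMap L Ω θ) a = y := by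
    intro y
    have h1 := IntermediateField.adjoin_simple_toSubalgebra_of_isAlgebraic
      (Algebra.IsAlgebraic.isAlgebraic (R := M) (algebraMap L Ω θ))
    rw [hθ, IntermediateField.top_toSubalgebra, Algebra.adjoin_singleton_eq_range_aeval] at h1
    have h2 : y ∈ (aeval (R := M) (algebraMap L Ω θ)).range := by
      rw [← h1]
      exact Algebra.mem_top
    exact h2
  have hunq : ∀ q ∈ S, ∀ w : HeightOneSpectrum (𝓞 M), Ov (𝔮 q) w →
      w.valuation M (q : M) = WithZero.exp (-1 : ℤ) := by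
    intro q hq w hw
    obtain ⟨v, hv⟩ : ∃ v : HeightOneSpectrum (𝓞 F), v.asIdeal = 𝔮 q :=
      ⟨⟨𝔮 q, hpr q hq, hq0 q hq⟩, rfl⟩
    have h1 := val_exp (v := v) (a := (q : 𝓞 F)) (by rw [hv]; exact hqq q hq)
      ((hS q hq).2.2.2.2.1 v.asIdeal v.isPrime)
    have ecn : ((q : 𝓞 F) : F) = (q : F) := map_natCast (algebraMap (𝓞 F) F) q
    rw [ecn] at h1
    have := (hQs q hq v hv).1 w (by rw [hv]; exact hw) (q : F)
    rwa [map_natCast, h1] at this
  refine H.tow n F L M Ω two_ne_zero hM (by rw [hc.rank]; exact odd_two_mul_add_one g)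
    (by rw [hΩ, hc.rank])
    (fun x => Cnd J 𝔮 T (algebraMap L Ω θ) (algebraMap L Ω (aeval θ (derivative (fF f)))) x ∧
      Arc M f (algebraMap L Ω θ) x) (fun x hx => ⟨cnd_sq hx, arc_sq hgen x⟩)
    (fun x y hx hy h h' => ⟨cnd_mul H.cls (fun q hq => ⟨hS' q (hJ hq), ?_⟩)
      (fun q hq 𝔓 h1 => ov_nat (hqq q (hJ hq)) h1)
      (fun q hq 𝔓 h1 h3 => ?_) hx hy h.1 h'.1, arc_mul h.2 h'.2⟩)
    (fun σ x h => ⟨cnd_sig H.sig rfl rfl σ h.1, arc_sig rfl σ h.2⟩)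
    (fun x hx hC hN => ?_) _ hne ⟨hcnd, harc⟩ hN
  · have := (hS q (hJ hq)).2.2.2.1
    omega
  · have h4 := (q_top (M := M) H.csq H.lie hg hc hsq hS hθ (hJ hq)
      (hcon' q (hJ hq)) (hunq q (hJ hq)) 𝔓 h1 h3).1
    apply not_ev_exp
    rw [map_mul, h4, h3, mul_one]
  · obtain ⟨b1, b2⟩ := base_sq (T := T) (𝔮 := 𝔮) (J := J) (Ω := Ω)
      (fun q hq => ⟨hpr q (hJ hq), hq0 q (hJ hq)⟩) hTm
      (fun 𝔓 h1 h3 => by
        obtain ⟨v, hv⟩ := exists_bel F 𝔓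
        have hvT : v.asIdeal ∉ T := fun h => h1 _ h (ov_bel hv)
        have hun : Unr v M := by
          by_contra hne
          exact hvT ⟨⟨v.isPrime, v.ne_bot⟩, hPr v hne⟩
        obtain ⟨𝔓', h4, -⟩ := up_prime (M := M) (Ω := Ω) hc hθ v hun 𝔓 (ov_bel hv) h3
        exact ⟨𝔓', h4⟩)
      (fun q hq 𝔓 h1 h3 => by
        have hqS := hJ hq
        obtain ⟨v, hv⟩ : ∃ v : HeightOneSpectrum (𝓞 F), v.asIdeal = 𝔮 q :=
          ⟨⟨𝔮 q, hpr q hqS, hq0 q hqS⟩, rfl⟩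
        have hspl := hQs q hqS v hv
        obtain ⟨𝔓', h4, w, hw, hwq⟩ := up_prime (M := M) (Ω := Ω) hc hθ v hspl.1 𝔓
          (by rw [hv]; exact h1)
          (H.csq g W F L f θ S 𝔮 s P hg hc hsq hS q hqS (hcon' q hqS) 𝔓 h1 h3).2.2.1
        exact ⟨𝔓', h4, Pool.Agent.N874.TW.dens3 (K := F) (𝓞 Ω) (𝓞 M) hθ 𝔓' w hw (by rw [h4, h3])
          (dens1 w (hunq q hqS w (by rw [← hv]; exact hwq)) (hspl.2 w hwq))⟩)
      (fun 𝔓 => Pool.Agent.N78.PF.val_der hc 𝔓)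
      (fun 𝔓 => Pool.Agent.N78.PF.val_theta hc 𝔓)
      (fun 𝔭 hp => H.pin g F L f θ hc hsq 𝔭 hp.1.1 hp.1.2 hp.2)
      (H.ram g F L f θ hc hsq)
      (H.par g F L f θ hc hsq)
      (fun q hq => H.parq g W F L f θ S 𝔮 s P hg hc hsq hS q (hJ hq) (hcon' q (hJ hq)))
      hx hN hC.1
    obtain ⟨h₀, c1, c2⟩ := arc_down' hc hmin h2M hC.2
    subst c1
    exact hsel h₀ hx hN b1 b2 c2 fun ρ => real_locIm hc hirr hmo ρ h₀ hx hN

end abs

end Pool.Agent.H458.RC
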