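import Pool.Agent.H458.RC.Sml
import Pool.Graph.R_pool_sql_team_seeded_63374d34.N300.TF.Famf
import Pool.Graph.R_pool_sql_team_seeded_63374d34.N250.TF.Irr

/-!
# The part of the box in which the derivative is positive at all real places

After `N648/TF/Famr.lean` (helper648), over a number field.
-/

set_option autoImplicit false
set_option linter.all false

open Polynomial NumberField IsDedekindDomain
open scoped Classical

namespace Pool.Agent.H458.RC

open Pool.Agent.N352.PJ (dd pol dis Dy D2)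
open Pool.Agent.N352.PF (dg Bal nv rv Bz Bx S_CL)
open Pool.Agent.N783.PF (Bd Cg sp rd Ht GoodS GoodF Fam fF)

section mono

variable {F : Type} [Field F] [NumberField F]

/-- The derivative of `f` is positive on the real line, for all real embeddings of `F`. -/
def Mono (f : (𝓞 F)[X]) : Prop :=
  ∀ (ρ : F →+* ℝ) (x : ℝ), 0 < (derivative ((fF f).map ρ)).eval x

end mono

/-- The constant. -/
def E (g : ℕ) : ℕ := 4 * (2 * g + 1) ^ 2

lemma E_pos (g : ℕ) : 0 < E g := by unfold E; positivity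

/-- The radii of the sub-box. -/
def Lj (g B j : ℕ) : ℕ := B ^ (2 * g + 1 - j) / E g

/-- The centres of the sub-box. -/
def mj (g B j : ℕ) : ℕ := if j = 1 then B ^ (2 * g) - Lj g B 1 else 0

lemma Lj_le (g B j : ℕ) : Lj g B j * E g ≤ B ^ (2 * g + 1 - j) :=
  Nat.div_mul_le_self (B ^ (2 * g + 1 - j)) (E g)

lemma Lj_le' (g B j : ℕ) : Lj g B j ≤ B ^ (2 * g + 1 - j) :=
  Nat.div_le_self (B ^ (2 * g + 1 - j)) (E g)

lemma Lj_ge (g B j : ℕ) : B ^ (2 * g + 1 - j) ≤ E g * (Lj g B j + 1) :=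
  (Nat.lt_mul_div_succ (B ^ (2 * g + 1 - j)) (E_pos g)).le

lemma mj_add (g B j : ℕ) : mj g B j + Lj g B j ≤ B ^ (2 * g + 1 - j) := by
  unfold mj
  split_ifs with hj
  · have h := Lj_le' g B 1
    have e : 2 * g + 1 - 1 = 2 * g := by omega
    rw [e] at h
    rw [hj, e]
    omega
  · have h := Lj_le' g B j
    omega

variable {F : Type} [Field F] [NumberField F]

/-- The sub-box. -/
def Vx (g B m : ℕ) (A : Fin (2 * g) → 𝓞 F) : Set (Fin (2 * g) → 𝓞 F) :=
  {a | ∀ j : Fin (2 * g), a j - ((mj g B j : ℕ) : 𝓞 F) ∈ Bal F (Lj g B j) ∧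
    (m : 𝓞 F) ∣ a j - A j}

lemma Vx_sub (g B m : ℕ) (A : Fin (2 * g) → 𝓞 F) : Vx g B m A ⊆ Bx g B m A := by
  intro a ha
  refine ⟨fun j σ => ?_, fun j => (ha j).2⟩
  have h1 := (ha j).1 σ
  have e : ((a j : 𝓞 F) : F) = ((a j - ((mj g B j : ℕ) : 𝓞 F) : 𝓞 F) : F) + ((mj g B j : ℕ) : F) := by
    have e1 : (((mj g B j : ℕ) : 𝓞 F) : F) = ((mj g B j : ℕ) : F) :=
      map_natCast (algebraMap (𝓞 F) F) _
    rw [← e1]
    push_cast
    ring
  rw [e, map_add, map_natCast]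
  refine (norm_add_le _ _).trans ?_
  have h2 : ‖((mj g B j : ℕ) : ℂ)‖ = (mj g B j : ℝ) := by
    rw [Complex.norm_natCast]
  rw [h2]
  have h3 : ((mj g B j : ℕ) : ℝ) + ((Lj g B j : ℕ) : ℝ) ≤ ((B ^ (2 * g + 1 - (j : ℕ)) : ℕ) : ℝ) := by
    exact_mod_cast mj_add g B j
  linarith

/-- The size of the sub-box. -/
lemma Vx_card {C : ℕ} (hC1 : 1 ≤ C) (hC : ∀ (T W : ℕ) (A : 𝓞 F),
    0 < W → C * W ≤ T → T ^ dg F ≤ C * {x ∈ Bal F T | (W : 𝓞 F) ∣ x - A}.ncard * W ^ dg F)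
    (g B m : ℕ) (A : Fin (2 * g) → 𝓞 F) (hm : 0 < m) (hB : C * m * E g ≤ B)
    (hfin : (Vx g B m A).Finite) :
    B ^ (dg F * dd g) ≤ ((2 * E g) ^ dg F * C) ^ (2 * g) *
      ((Vx g B m A).ncard * m ^ (2 * g * dg F)) := by
  classical
  have hE := E_pos g
  have hB1 : 1 ≤ B := by
    have : 0 < C * m * E g := by positivity
    omega
  set S : Fin (2 * g) → Set (𝓞 F) := fun j =>
    {x | x - ((mj g B j : ℕ) : 𝓞 F) ∈ Bal F (Lj g B j) ∧ (m : 𝓞 F) ∣ x - A j} with hS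
  have hL : ∀ j : Fin (2 * g), C * m ≤ Lj g B j := by
    intro j
    unfold Lj
    rw [Nat.le_div_iff_mul_le hE]
    refine hB.trans (Nat.le_self_pow ?_ B)
    have := j.2
    omega
  have hSf : ∀ j, (S j).Finite := by
    intro j
    have h1 : {x ∈ Bal F (Lj g B j) | (m : 𝓞 F) ∣ x - (A j - ((mj g B j : ℕ) : 𝓞 F))}.Finite := by
      by_contra hinf
      have h2 := hC (Lj g B j) m (A j - ((mj g B j : ℕ) : 𝓞 F)) hm (hL j)
      rw [Set.Infinite.ncard hinf] at h2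
      have h3 : 1 ≤ Lj g B j := le_trans (Nat.mul_pos hC1 hm) (hL j)
      have h4 := Nat.one_le_pow (dg F) _ h3
      simp at h2
      omega
    refine (h1.image fun y => y + ((mj g B j : ℕ) : 𝓞 F)).subset ?_
    rintro x ⟨hx1, hx2⟩
    refine ⟨x - ((mj g B j : ℕ) : 𝓞 F), ⟨hx1, ?_⟩, sub_add_cancel _ _⟩
    have e : x - ((mj g B j : ℕ) : 𝓞 F) - (A j - ((mj g B j : ℕ) : 𝓞 F)) = x - A j := by ring
    rw [e]
    exact hx2
  have hSn : ∀ j : Fin (2 * g), Lj g B j ^ dg F ≤ C * (S j).ncard * m ^ dg F := by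
    intro j
    refine (hC (Lj g B j) m (A j - ((mj g B j : ℕ) : 𝓞 F)) hm (hL j)).trans ?_
    refine Nat.mul_le_mul_right _ (Nat.mul_le_mul_left _ ?_)
    refine Set.ncard_le_ncard_of_injOn (fun y => y + ((mj g B j : ℕ) : 𝓞 F)) ?_ ?_ (hSf j)
    · rintro y ⟨hy1, hy2⟩
      refine ⟨?_, ?_⟩
      · rw [add_sub_cancel_right]
        exact hy1
      · have e : y + ((mj g B j : ℕ) : 𝓞 F) - A j = y - (A j - ((mj g B j : ℕ) : 𝓞 F)) := by ring
        rw [e]
        exact hy2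
    · intro y _ z _ h
      exact add_right_cancel h
  have e : Vx g B m A = {a : Fin (2 * g) → 𝓞 F | ∀ j, a j ∈ S j} := by
    ext a
    exact Iff.rfl
  rw [e, (Pool.Agent.N645.PF.ncard_pi S hSf).2]
  calc B ^ (dg F * dd g) = ∏ j : Fin (2 * g), (B ^ (2 * g + 1 - (j : ℕ))) ^ dg F :=
        (Pool.Agent.N645.PF.prod_pow g B (dg F)).symm
    _ ≤ ∏ j : Fin (2 * g), (((2 * E g) ^ dg F * C) * ((S j).ncard * m ^ dg F)) := by
        refine Finset.prod_le_prod' fun j _ => ?_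
        have h1 : 1 ≤ Lj g B j := le_trans (Nat.mul_pos hC1 hm) (hL j)
        calc (B ^ (2 * g + 1 - (j : ℕ))) ^ dg F ≤ ((2 * E g) * Lj g B j) ^ dg F := by
              refine Nat.pow_le_pow_left ((Lj_ge g B j).trans ?_) _
              nlinarith
          _ = (2 * E g) ^ dg F * Lj g B j ^ dg F := by rw [mul_pow]
          _ ≤ (2 * E g) ^ dg F * (C * (S j).ncard * m ^ dg F) := Nat.mul_le_mul_left _ (hSn j)
          _ = _ := by ring
    _ = ((2 * E g) ^ dg F * C) ^ (2 * g) * ((∏ j, (S j).ncard) * m ^ (2 * g * dg F)) := by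
        rw [Finset.prod_mul_distrib, Finset.prod_const, Finset.prod_mul_distrib,
          Finset.prod_const, Finset.card_univ, Fintype.card_fin, ← pow_mul m, mul_comm (dg F)]

/-- The derivative of the polynomials in the sub-box is positive. -/
lemma mono_pol {g B m : ℕ} (hg : 1 ≤ g) (hB : 1 ≤ B) {A a : Fin (2 * g) → 𝓞 F}
    (ha : a ∈ Vx g B m A) : Mono (pol a) := by
  intro ρ x
  have hE := E_pos g
  have hER : (0 : ℝ) < (E g : ℝ) := by exact_mod_cast hE
  have hBR : (1 : ℝ) ≤ (B : ℝ) := by exact_mod_cast hB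
  have hB0 : (0 : ℝ) ≤ (B : ℝ) := by linarith
  have hev : (derivative ((fF (pol a)).map ρ)).eval x = ((2 * g + 1 : ℕ) : ℝ) * x ^ (2 * g) +
      ∑ j : Fin (2 * g), (ρ (a j : F)) * (((j : ℕ) : ℝ) * x ^ ((j : ℕ) - 1)) := by
    unfold pol fF
    rw [Polynomial.map_map, Polynomial.map_add, Polynomial.map_pow, map_X, Polynomial.map_sum,
      derivative_add, derivative_X_pow, derivative_sum, eval_add, eval_finset_sum]
    congr 1
    · simp
    · refine Finset.sum_congr rfl fun j _ => ?_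
      rw [Polynomial.map_mul, map_C, Polynomial.map_pow, map_X, derivative_C_mul,
        derivative_X_pow]
      simp
  rw [hev]
  -- the real conjugates
  have hab : ∀ j : Fin (2 * g), |ρ (a j : F) - (mj g B j : ℝ)| ≤ (Lj g B j : ℝ) := by
    intro j
    have h1 := (ha j).1 ((algebraMap ℝ ℂ).comp ρ)
    rw [RingHom.comp_apply] at h1
    have e1 : (((mj g B j : ℕ) : 𝓞 F) : F) = ((mj g B j : ℕ) : F) :=
      map_natCast (algebraMap (𝓞 F) F) _
    have e : ((a j - ((mj g B j : ℕ) : 𝓞 F) : 𝓞 F) : F) = (a j : F) - ((mj g B j : ℕ) : F) := by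
      rw [← e1]
      push_cast
      ring
    rw [e, map_sub, map_natCast] at h1
    have h2 : ‖(algebraMap ℝ ℂ) (ρ (a j : F) - (mj g B j : ℝ))‖ = |ρ (a j : F) - (mj g B j : ℝ)| :=
      Complex.norm_real _
    rw [h2] at h1
    exact h1
  set T : ℝ := (B : ℝ) ^ (2 * g) + x ^ (2 * g) with hT
  have hx0 : (0 : ℝ) ≤ x ^ (2 * g) := by
    rw [pow_mul]
    positivity
  have hBp : (0 : ℝ) < (B : ℝ) ^ (2 * g) := by positivity
  have hT0 : 0 ≤ T := by positivity
  have key : ∀ j : Fin (2 * g), (if (j : ℕ) = 1 then (B : ℝ) ^ (2 * g) / 2 else 0) -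
      (2 * g : ℝ) / (E g : ℝ) * T ≤ (ρ (a j : F)) * (((j : ℕ) : ℝ) * x ^ ((j : ℕ) - 1)) := by
    intro j
    have h1 := hab j
    have hj2 := j.2
    have hneg : 0 ≤ (2 * g : ℝ) / (E g : ℝ) * T := by positivity
    by_cases hj : (j : ℕ) = 1
    · rw [if_pos hj]
      have h3 := Lj_le g B 1
      have e : 2 * g + 1 - 1 = 2 * g := by omega
      rw [e] at h3
      have h4 : ((Lj g B 1 : ℕ) : ℝ) * (E g : ℝ) ≤ (B : ℝ) ^ (2 * g) := by exact_mod_cast h3
      have h5 : (4 : ℝ) ≤ (E g : ℝ) := by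
        have : 4 ≤ E g := by
          unfold E
          have : 1 ≤ (2 * g + 1) ^ 2 := Nat.one_le_pow _ _ (by omega)
          omega
        exact_mod_cast this
      have h6 : (0 : ℝ) ≤ ((Lj g B 1 : ℕ) : ℝ) := by positivity
      have h7 : ((mj g B j : ℕ) : ℝ) = (B : ℝ) ^ (2 * g) - ((Lj g B 1 : ℕ) : ℝ) := by
        have h8 := Lj_le' g B 1
        rw [e] at h8
        unfold mj
        rw [if_pos hj, Nat.cast_sub h8, Nat.cast_pow]
      have h8 : ((Lj g B 1 : ℕ) : ℝ) * 4 ≤ ((Lj g B 1 : ℕ) : ℝ) * (E g : ℝ) :=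
        mul_le_mul_of_nonneg_left h5 h6
      have h9 := (abs_le.1 h1).1
      rw [hj] at h9 h7
      rw [hj]
      simp only [Nat.cast_one, Nat.sub_self, pow_zero, mul_one]
      linarith
    · rw [if_neg hj]
      have h7 : ((mj g B j : ℕ) : ℝ) = 0 := by
        unfold mj
        rw [if_neg hj, Nat.cast_zero]
      rw [h7, sub_zero] at h1
      rcases Nat.eq_zero_or_pos (j : ℕ) with hz | hz
      · rw [hz]
        simp only [Nat.cast_zero, zero_mul, mul_zero]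
        linarith
      · have hj1 : 1 ≤ (j : ℕ) := hz
        have h5 : |ρ (a j : F)| ≤ (B : ℝ) ^ (2 * g + 1 - (j : ℕ)) / (E g : ℝ) := by
          rw [le_div_iff₀ hER]
          have h4 : ((Lj g B j : ℕ) : ℝ) * (E g : ℝ) ≤ (B : ℝ) ^ (2 * g + 1 - (j : ℕ)) := by
            exact_mod_cast Lj_le g B j
          exact (mul_le_mul_of_nonneg_right h1 hER.le).trans h4
        have h6 : (B : ℝ) ^ (2 * g + 1 - (j : ℕ)) * |x| ^ ((j : ℕ) - 1) ≤ T := by
          have e1 : (2 * g + 1 - (j : ℕ)) + ((j : ℕ) - 1) = 2 * g := by omega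
          have hxa : x ^ (2 * g) = |x| ^ (2 * g) := by
            rw [pow_mul, pow_mul, sq_abs]
          rw [hT, hxa]
          have hx' := abs_nonneg x
          rcases le_total |x| (B : ℝ) with hc | hc
          · calc (B : ℝ) ^ (2 * g + 1 - (j : ℕ)) * |x| ^ ((j : ℕ) - 1)
                ≤ (B : ℝ) ^ (2 * g + 1 - (j : ℕ)) * (B : ℝ) ^ ((j : ℕ) - 1) := by gcongr
              _ = (B : ℝ) ^ (2 * g) := by rw [← pow_add, e1]
              _ ≤ _ := by
                have : 0 ≤ |x| ^ (2 * g) := by positivity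
                linarith
          · calc (B : ℝ) ^ (2 * g + 1 - (j : ℕ)) * |x| ^ ((j : ℕ) - 1)
                ≤ |x| ^ (2 * g + 1 - (j : ℕ)) * |x| ^ ((j : ℕ) - 1) := by gcongr
              _ = |x| ^ (2 * g) := by rw [← pow_add, e1]
              _ ≤ _ := by linarith
        have h8 : |(ρ (a j : F)) * (((j : ℕ) : ℝ) * x ^ ((j : ℕ) - 1))| ≤
            (2 * g : ℝ) / (E g : ℝ) * T := by
          rw [abs_mul, abs_mul, abs_pow, Nat.abs_cast]
          have h8 : ((j : ℕ) : ℝ) ≤ 2 * g := by exact_mod_cast hj2.le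
          calc |ρ (a j : F)| * (((j : ℕ) : ℝ) * |x| ^ ((j : ℕ) - 1))
              ≤ ((B : ℝ) ^ (2 * g + 1 - (j : ℕ)) / (E g : ℝ)) *
                ((2 * g : ℝ) * |x| ^ ((j : ℕ) - 1)) := by gcongr
            _ = (2 * g : ℝ) / (E g : ℝ) *
                ((B : ℝ) ^ (2 * g + 1 - (j : ℕ)) * |x| ^ ((j : ℕ) - 1)) := by ring
            _ ≤ _ := by gcongr
        have h9 := neg_le_of_abs_le h8
        linarith
  have hsum := Finset.sum_le_sum (s := Finset.univ) fun (j : Fin (2 * g)) _ => key j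
  rw [Finset.sum_sub_distrib, Finset.sum_const, Finset.card_univ, Fintype.card_fin] at hsum
  have hone : ∑ j : Fin (2 * g), (if (j : ℕ) = 1 then (B : ℝ) ^ (2 * g) / 2 else 0) =
      (B : ℝ) ^ (2 * g) / 2 := by
    rw [Finset.sum_eq_single (⟨1, by omega⟩ : Fin (2 * g))]
    · simp
    · intro b _ hb
      rw [if_neg]
      intro hb1
      exact hb (Fin.ext hb1)
    · intro h
      exact absurd (Finset.mem_univ _) h
  rw [hone, nsmul_eq_mul] at hsum
  have hq : ((2 * g : ℕ) : ℝ) * ((2 * g : ℝ) / (E g : ℝ) * T) ≤ T / 4 := by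
    have h1 : (E g : ℝ) = 4 * (2 * g + 1) ^ 2 := by unfold E; push_cast; ring
    have h2 : ((2 * g : ℕ) : ℝ) * ((2 * g : ℝ) / (E g : ℝ)) ≤ 1 / 4 := by
      rw [h1]
      push_cast
      rw [← mul_div_assoc, div_le_div_iff₀ (by positivity) (by norm_num)]
      nlinarith [Nat.cast_nonneg (α := ℝ) g]
    calc ((2 * g : ℕ) : ℝ) * ((2 * g : ℝ) / (E g : ℝ) * T)
        = (((2 * g : ℕ) : ℝ) * ((2 * g : ℝ) / (E g : ℝ))) * T := by ring
      _ ≤ 1 / 4 * T := mul_le_mul_of_nonneg_right h2 hT0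
      _ = T / 4 := by ring
  have hlead : x ^ (2 * g) ≤ ((2 * g + 1 : ℕ) : ℝ) * x ^ (2 * g) := by
    have h1 : (1 : ℝ) ≤ ((2 * g + 1 : ℕ) : ℝ) := by
      exact_mod_cast (by omega : 1 ≤ 2 * g + 1)
    nlinarith
  rw [hT] at hq
  linarith

end Pool.Agent.H458.RC
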