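import Pool.Agent.H458.RC.Fld
import Pool.Graph.R_pool_sql_team_seeded_63374d34.N874.TF.All

/-!
# Counting

After `N874/TF/Cnt.lean` (helper874).
-/

set_option autoImplicit false
set_option linter.all false

open Polynomial IsDedekindDomain NumberField
open Pool.Agent.N352.PJ (dd)
open Pool.Agent.N783.PF (Ov IsGen fF GoodS GoodF SqF Cg rd sp Dp Fam LBad Min S_GEN Ht S_PTS S_BAD
  S_EXS)
open Pool.Agent.N99.PF (card_fib ht_card ht_scale scale_inj good_card)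
open Pool.Agent.N170.PF (fF_scale)
open Pool.Agent.N874.TF (Tws exists_nat nat_mem_prod Spl irr_mod')
open scoped Classical IntermediateField

namespace Pool.Agent.H458.RC

section scale

variable {F : Type} [Field F] [NumberField F]

theorem mono_scale {f : (𝓞 F)[X]} (hm : f.Monic) (h : Mono f) {D : ℕ} (hD : 0 < D) :
    Mono (f.scaleRoots ((D : ℕ) : 𝓞 F)) := by
  intro ρ x
  have hDR : (0 : ℝ) < D := by exact_mod_cast hD
  obtain ⟨p, hp⟩ : ∃ p : ℝ[X], p = (fF f).map ρ := ⟨_, rfl⟩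
  have hmp : p.Monic := by
    rw [hp]
    exact (hm.map _).map _
  have e1 : (fF (f.scaleRoots ((D : ℕ) : 𝓞 F))).map ρ = p.scaleRoots (D : ℝ) := by
    rw [fF_scale hm, map_scaleRoots]
    · rw [map_natCast, hp]
    · rw [(hm.map (algebraMap (𝓞 F) F)).leadingCoeff, map_one]
      exact one_ne_zero
  rw [e1]
  have e2 : (p.scaleRoots (D : ℝ)).comp (C (D : ℝ) * X) = C ((D : ℝ) ^ p.natDegree) * p := by
    refine Polynomial.funext fun y => ?_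
    rw [eval_comp, eval_mul, eval_C, eval_X, eval_mul, eval_C]
    have h1 := scaleRoots_eval₂_mul (p := p) (RingHom.id ℝ) y (D : ℝ)
    simpa [eval₂_id] using h1
  have e3 := congrArg derivative e2
  rw [derivative_comp, derivative_C_mul, derivative_C_mul, derivative_X, mul_one] at e3
  have e4 := congrArg (fun q : ℝ[X] => q.eval (x / D)) e3
  simp only [eval_mul, eval_comp, eval_C, eval_X] at e4
  rw [mul_div_cancel₀ _ hDR.ne'] at e4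
  have h5 := h ρ (x / D)
  rw [← hp] at h5
  have h6 : 0 < (D : ℝ) * eval x (derivative (p.scaleRoots (D : ℝ))) := by
    rw [e4]
    positivity
  exact (mul_pos_iff_of_pos_left hDR).1 h6

theorem cg_scale {g n W : ℕ} {f f₁ f₂ : (𝓞 F)[X]} (hnW : n ∣ W) (h2 : Cg (sp F n) f₁ f₂)
    (h1 : Cg (sp F W) f f₁) (hd : f.natDegree = 2 * g + 1) {D : ℕ} (hD : D ≡ 1 [MOD n]) :
    Cg (sp F n) (f.scaleRoots ((D : ℕ) : 𝓞 F)) f₂ := by
  intro j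
  rw [coeff_scaleRoots, Ideal.mem_span_singleton]
  have a1 : (n : 𝓞 F) ∣ f.coeff j - f₁.coeff j :=
    (Nat.cast_dvd_cast hnW).trans (Ideal.mem_span_singleton.1 (h1 j))
  have a2 : (n : 𝓞 F) ∣ f₁.coeff j - f₂.coeff j := Ideal.mem_span_singleton.1 (h2 j)
  have a3 : (n : 𝓞 F) ∣ ((D : ℕ) : 𝓞 F) ^ (f.natDegree - j) - 1 := by
    have h3 : (n : ℤ) ∣ (D : ℤ) ^ (f.natDegree - j) - 1 := by
      have h4 : (n : ℤ) ∣ (D : ℤ) - 1 := by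
        have := (Nat.modEq_iff_dvd.1 hD.symm)
        simpa using this
      have h5 := sub_dvd_pow_sub_pow (D : ℤ) 1 (f.natDegree - j)
      rw [one_pow] at h5
      exact h4.trans h5
    obtain ⟨c, hc⟩ := h3
    refine ⟨(c : 𝓞 F), ?_⟩
    have h6 := congrArg (fun z : ℤ => (z : 𝓞 F)) hc
    push_cast at h6
    exact h6
  have e : f.coeff j * ((D : ℕ) : 𝓞 F) ^ (f.natDegree - j) - f₂.coeff j =
      f.coeff j * (((D : ℕ) : 𝓞 F) ^ (f.natDegree - j) - 1) + (f.coeff j - f₁.coeff j) +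
        (f₁.coeff j - f₂.coeff j) := by ring
  rw [e]
  exact dvd_add (dvd_add (Dvd.dvd.mul_left a3 _) a1) a2

end scale

section cnt

/-- **Main theorem on the explicit 2-Selmer groups.** -/
theorem main (F N₀ : Type) [Field F] [NumberField F] [Field N₀] [NumberField N₀] [Algebra F N₀]
    {g : ℕ} (hg : 1 ≤ g) (T : Finset (HeightOneSpectrum (𝓞 F))) (n₀ : ℕ) (hn₀ : 0 < n₀)
    (f₂ : (𝓞 F)[X]) (hmon₂ : f₂.Monic) (hdeg₂ : f₂.natDegree = 2 * g + 1)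
    (htr₂ : f₂.coeff (2 * g) = 0)
    (hirr₂ : ∀ 𝔭 : Ideal (𝓞 F), 𝔭.IsPrime → (n₀ : 𝓞 F) ∈ 𝔭 → Irreducible (rd 𝔭 f₂)) :
    ∃ Q : Finset (HeightOneSpectrum (𝓞 F)), Disjoint Q T ∧ (∀ v ∈ Q, (2 : 𝓞 F) ∉ v.asIdeal) ∧
    (∀ v ∈ Q, Spl v N₀) ∧
    ∃ c : ℝ, 0 < c ∧ ∃ B₀ : ℕ, ∀ B ≥ B₀,
    {f : (𝓞 F)[X] | Ht g B f}.Finite ∧ c * ({f : (𝓞 F)[X] | Ht g B f}.ncard : ℝ) ≤
      ({f : (𝓞 F)[X] | Ht g B f ∧ Irreducible (fF f) ∧
        (∀ v : HeightOneSpectrum (𝓞 F), (2 : 𝓞 F) ∈ v.asIdeal → Irreducible (rd v.asIdeal f)) ∧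
        (∀ v ∈ T, Irreducible (rd v.asIdeal f)) ∧ Cg (sp F n₀) f f₂ ∧ Mono f ∧
        Tws g {𝔭 | ∃ v ∈ Q, 𝔭 = v.asIdeal} f ∧ Uni {𝔭 | ∃ v ∈ Q, 𝔭 = v.asIdeal} f f ∧
        Min g f}.ncard : ℝ) := by
  have H := Pool.Agent.N874.TF.parts
  have hGEN := Pool.Agent.N667.PF.gen
  have h0 := Pool.Agent.N490.PF.pts
  have h2 := Pool.Agent.N783.PF.bad
  obtain ⟨κ, htw⟩ := selM H hGEN F hg
  obtain ⟨C, K, hbad⟩ := h2 F g κ hg
  choose pr hpr1 hpr2 using fun v : HeightOneSpectrum (𝓞 F) => exists_nat v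
  obtain ⟨W, f₁, hKW, hf₁, hnW, hcg₂, hWp, hWi, c, hc, hfam⟩ := famr F g hg (max K κ)
    (∑ v ∈ T, pr v) n₀ hn₀ f₂ hmon₂ hdeg₂ htr₂ hirr₂
  have hTW : ∀ v ∈ T, pr v ∣ W := fun v hv =>
    hWp (pr v) (hpr1 v) (Finset.single_le_sum (f := pr) (fun _ _ => Nat.zero_le _) hv)
  obtain ⟨-, Cp, hCp, -, hpt⟩ := h0 F
  set D : ℕ := Module.finrank ℚ F * dd g with hD
  obtain ⟨m, hm⟩ : ∃ m : ℕ, 2 * (C * (4 * 2 ^ κ : ℝ) ^ D) / c < 2 ^ m :=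
    pow_unbounded_of_one_lt _ (by norm_num)
  obtain ⟨S, 𝔮, h, P, hS, hcard, hSn, hSpl⟩ := exs' F N₀ g W n₀ hg hn₀ m
  have hqq : ∀ q ∈ S, (q : 𝓞 F) ∈ 𝔮 q := fun q hq => (hS q hq).2.2.2.2.2.2.1
  have hpr : ∀ q ∈ S, (𝔮 q).IsPrime := fun q hq => (hS q hq).2.2.2.2.2.1
  have hq0 : ∀ q ∈ S, 𝔮 q ≠ ⊥ := by
    intro q hq h0
    have h1 := hqq q hq
    rw [h0, Ideal.mem_bot] at h1
    exact (hS q hq).1.ne_zero (by exact_mod_cast h1)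
  -- the primes in `Q`
  obtain ⟨Q₀, hQ₀⟩ : ∃ Q₀ : Finset (HeightOneSpectrum (𝓞 F)), ∀ v : HeightOneSpectrum (𝓞 F),
      v ∈ Q₀ ↔ ∃ q ∈ S, v.asIdeal = 𝔮 q := by
    let φ : {q // q ∈ S} → HeightOneSpectrum (𝓞 F) := fun q =>
      ⟨𝔮 q.1, hpr q.1 q.2, hq0 q.1 q.2⟩
    refine ⟨S.attach.image φ, fun v => ?_⟩
    rw [Finset.mem_image]
    constructor
    · rintro ⟨q, -, rfl⟩
      exact ⟨q.1, q.2, rfl⟩
    · rintro ⟨q, hq, hv⟩
      exact ⟨⟨q, hq⟩, Finset.mem_attach _ _, HeightOneSpectrum.ext hv.symm⟩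
  have hQset : {𝔭 : Ideal (𝓞 F) | ∃ v ∈ Q₀, 𝔭 = v.asIdeal} = {𝔭 | ∃ q ∈ S, 𝔭 = 𝔮 q} := by
    ext 𝔭
    constructor
    · rintro ⟨v, hv, rfl⟩
      exact (hQ₀ v).1 hv
    · rintro ⟨q, hq, rfl⟩
      exact ⟨⟨𝔮 q, hpr q hq, hq0 q hq⟩, (hQ₀ _).2 ⟨q, hq, rfl⟩, rfl⟩
  have hne : ∀ q ∈ S, ∀ p : ℕ, p.Prime → p ∣ W → ∀ v : HeightOneSpectrum (𝓞 F),
      (q : 𝓞 F) ∈ v.asIdeal → (p : 𝓞 F) ∈ v.asIdeal → False := by
    intro q hq p hp hpW v h4 h5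
    have h6 := Pool.Agent.N874.QM.below_unique (hS q hq).1 hp h4 h5
    have h7 := Nat.le_of_dvd hf₁.pos hpW
    have h8 := (hS q hq).2.1
    omega
  refine ⟨Q₀, ?_, ?_, ?_, ?_⟩
  · rw [Finset.disjoint_left]
    intro v hv hvT
    obtain ⟨q, hq, hvq⟩ := (hQ₀ v).1 hv
    exact hne q hq (pr v) (hpr1 v) (hTW v hvT) v (by rw [hvq]; exact hqq q hq) (hpr2 v)
  · intro v hv h2v
    obtain ⟨q, hq, hvq⟩ := (hQ₀ v).1 hv
    exact hne q hq 2 Nat.prime_two hf₁.two v (by rw [hvq]; exact hqq q hq)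
      (by rw [Nat.cast_ofNat]; exact h2v)
  · intro v hv
    obtain ⟨q, hq, hvq⟩ := (hQ₀ v).1 hv
    exact hSpl q hq v (by rw [hvq]; exact hqq q hq)
  rw [hQset]
  obtain ⟨B₁₀, hB₁₀⟩ := hfam S 𝔮 h P hS
  obtain ⟨N₀, hN₀⟩ := hbad W S 𝔮 h P ((le_max_left _ _).trans hKW) hS
  set Q : ℕ := ∏ q ∈ S, q with hQ
  have hq1 : ∀ q ∈ S, 1 ≤ q := fun q hq => (hS q hq).1.pos
  have hQ1 : 1 ≤ Q := Finset.one_le_prod' hq1
  set Pn : ℕ := (∏ q ∈ S, q ^ (2 * g)) ^ Module.finrank ℚ F with hPn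
  have hP0 : (0 : ℝ) < Pn := by
    have : 0 < Pn := pow_pos (Finset.prod_pos fun q hq => pow_pos (hq1 q hq) _) _
    exact_mod_cast this
  have hQ0 : (0 : ℝ) < Q := by exact_mod_cast hQ1
  set X₀ : ℕ := max (max B₁₀ (4 ^ N₀)) 1 with hX₀
  refine ⟨c / 2 / (Pn * 2 ^ m * ((2 * Cp) ^ (2 * g) * (2 * Q) ^ D)), by positivity, X₀ * Q,
    fun B hB => ?_⟩
  set B₁ : ℕ := B / Q with hB₁
  have hBX : X₀ ≤ B₁ := (Nat.le_div_iff_mul_le hQ1).2 hB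
  have hb1 : 1 ≤ B₁ := (le_max_right _ _).trans hBX
  have hb2 : B₁₀ ≤ B₁ := ((le_max_left _ _).trans (le_max_left _ _)).trans hBX
  have hb3 : 4 ^ N₀ ≤ B₁ := ((le_max_right _ _).trans (le_max_left _ _)).trans hBX
  have hBQ : B₁ * Q ≤ B := Nat.div_mul_le_self B Q
  have hBQ2 : B ≤ 2 * Q * B₁ := by
    have e1 : B < B₁ * Q + Q := by
      have := Nat.lt_div_mul_add (a := B) (b := Q) hQ1
      exact this
    nlinarith
  have hB1 : 1 ≤ B := le_trans (by nlinarith) hBQ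
  obtain ⟨N, hNa, hNb⟩ : ∃ N : ℕ, 2 ^ κ * B₁ ≤ 4 ^ N ∧ 4 ^ N ≤ 4 * (2 ^ κ * B₁) := by
    refine ⟨Nat.log 4 (2 ^ κ * B₁) + 1, (Nat.lt_pow_succ_log_self (by norm_num) _).le, ?_⟩
    rw [pow_succ, mul_comm]
    refine Nat.mul_le_mul_left 4 (Nat.pow_log_le_self 4 ?_)
    positivity
  have hNN : N₀ ≤ N := by
    have e1 : 4 ^ N₀ ≤ 4 ^ N := hb3.trans (le_trans (Nat.le_mul_of_pos_left _ (by positivity)) hNa)
    exact (Nat.pow_le_pow_iff_right (by norm_num)).1 e1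
  obtain ⟨hfin, hBd⟩ := hN₀ N hNN
  refine ⟨(ht_card hCp hpt g B hB1).1, ?_⟩
  set Hs := {f : (𝓞 F)[X] | Ht g B f ∧ Irreducible (fF f) ∧
        (∀ v : HeightOneSpectrum (𝓞 F), (2 : 𝓞 F) ∈ v.asIdeal → Irreducible (rd v.asIdeal f)) ∧
        (∀ v ∈ T, Irreducible (rd v.asIdeal f)) ∧ Cg (sp F n₀) f f₂ ∧ Mono f ∧
        Tws g {𝔭 | ∃ q ∈ S, 𝔭 = 𝔮 q} f ∧ Uni {𝔭 | ∃ q ∈ S, 𝔭 = 𝔮 q} f f ∧
        Min g f} with hH
  set G := {f : (𝓞 F)[X] | Fam g B₁ W f₁ S P f ∧ Mono f} \ {f : (𝓞 F)[X] | LBad g N κ S 𝔮 P f}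
    with hGdef
  have hHf : Hs.Finite := (ht_card hCp hpt g B hB1).1.subset fun f hf => hf.1
  have hGf : G.Finite := (ht_card hCp hpt g B₁ hb1).1.subset fun f hf => hf.1.1.ht
  have hG : c / 2 * (B₁ : ℝ) ^ D ≤ Pn * (G.ncard : ℝ) := by
    refine good_card (C := C) (m := m) (κ := κ) hc hP0 B₁ N (hB₁₀ B₁ hb2) hfin ?_ hm ?_
    · rw [hcard] at hBd
      have e2 : Module.finrank ℚ F * (2 * N * dd g) = 2 * N * D := by rw [hD]; ring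
      rw [e2] at hBd
      exact_mod_cast hBd
    · exact_mod_cast hNb
  have hJ0 : ∀ J ⊆ S, ((Dp J : ℕ) : 𝓞 F) ≠ 0 := by
    intro J hJ
    have : 0 < ∏ q ∈ J, q := Finset.prod_pos fun q hq => hq1 q (hJ hq)
    have h5 : (Dp J : ℕ) ≠ 0 := this.ne'
    exact_mod_cast h5
  have hJ0' : ∀ J ⊆ S, 0 < Dp J := by
    intro J hJ
    exact Finset.prod_pos fun q hq => hq1 q (hJ hq)
  have hirrW : ∀ f : (𝓞 F)[X], Fam g B₁ W f₁ S P f → ∀ J ⊆ S,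
      ∀ (v : HeightOneSpectrum (𝓞 F)) (p : ℕ), p.Prime → p ∣ W → (p : 𝓞 F) ∈ v.asIdeal →
      Irreducible (rd v.asIdeal (f.scaleRoots ((Dp J : ℕ) : 𝓞 F))) := by
    intro f hf J hJ v p hp hpW hpv
    refine irr_mod' hf.ht.mon v (fun hD' => ?_) ?_
    · obtain ⟨q, hq, hqv⟩ := nat_mem_prod hD'
      exact hne q (hJ hq) p hp hpW v hqv hpv
    · have hWv : (W : 𝓞 F) ∈ v.asIdeal := by
        obtain ⟨b, hb⟩ := hpW
        rw [hb, Nat.cast_mul]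
        exact Ideal.mul_mem_right _ _ hpv
      rw [Pool.Agent.N78.PF.rd_eq (Pool.Agent.N78.PF.sp_le hWv) hf.one]
      exact hWi v.asIdeal v.isPrime hWv
  have hDn : ∀ J ⊆ S, Dp J ≡ 1 [MOD n₀] := by
    intro J
    induction J using Finset.induction_on with
    | empty => intro _; exact Nat.ModEq.refl 1
    | insert a t ha ih =>
      intro hsub
      have h7 := (hSn a (hsub (Finset.mem_insert_self _ _))).mul
        (ih ((Finset.subset_insert _ _).trans hsub))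
      rw [Dp, Finset.prod_insert ha]
      exact h7
  have hcard1 := card_fib hGf hHf S (fun J f => f.scaleRoots ((Dp J : ℕ) : 𝓞 F)) (by
      rintro f ⟨⟨hf1, hmo⟩, hf2⟩
      have hf : Fam g B₁ W f₁ S P f ∧ ¬ LBad g N κ S 𝔮 P f := ⟨hf1, hf2⟩
      obtain ⟨hsqf, J, hJ, hirr, hsel, hmin⟩ := htw B₁ N W f₁ S 𝔮 h P f
        ((le_max_right _ _).trans hKW) hf₁ hS hf.1 hmo hNa hb1 hf.2
      have hDle : Dp J ≤ Q :=
        Finset.prod_le_prod_of_subset_of_one_le' hJ fun q hq _ => hq1 q hq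
      refine ⟨J, hJ, ht_scale hf.1.ht ((Nat.mul_le_mul_left _ hDle).trans hBQ), hirr,
        fun v hv => hirrW f hf.1 J hJ v 2 Nat.prime_two hf₁.two (by rw [Nat.cast_ofNat]; exact hv),
        fun v hv => hirrW f hf.1 J hJ v (pr v) (hpr1 v) (hTW v hv) (hpr2 v),
        cg_scale hnW hcg₂ hf.1.one hf.1.ht.deg (hDn J hJ),
        mono_scale hf.1.ht.mon hmo (hJ0' J hJ),
        ⟨Dp J, f, hsqf, rfl, ?_, ?_, ?_⟩, uni_self hf.1.ht.mon hsel, hmin⟩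
      · refine Finset.squarefree_prod_of_pairwise_isCoprime ?_ fun q hq =>
          (hS q (hJ hq)).1.prime.squarefree
        intro a ha b hb hab
        exact Nat.coprime_iff_isRelPrime.1
          ((Nat.coprime_primes (hS a (hJ ha)).1 (hS b (hJ hb)).1).2 hab)
      · intro q hq hqD
        obtain ⟨p, hp, hqp⟩ := (hq.prime.dvd_finset_prod_iff _).1 hqD
        have h5 := (Nat.prime_dvd_prime_iff_eq hq (hS p (hJ hp)).1).1 hqp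
        rw [h5]
        exact (hS p (hJ hp)).2.2.2.1
      · intro v hv
        obtain ⟨q, hq, hqv⟩ := nat_mem_prod hv
        by_cases hvq : v.asIdeal = 𝔮 q
        · exact Or.inl ⟨q, hJ hq, hvq⟩
        · right
          rw [Pool.Agent.N78.PF.rd_eq (Pool.Agent.N78.PF.sp_le hqv) (hf.1.con q (hJ hq))]
          exact (hS q (hJ hq)).2.2.2.2.2.2.2.2.2.2.2.2.2.2 v.asIdeal v.isPrime hqv hvq) (by
      intro J hJ x hx y hy hxy
      exact scale_inj (hJ0 J hJ) (by rw [hx.1.1.ht.deg, hy.1.1.ht.deg]) hxy)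
  rw [hcard] at hcard1
  have hcard' : (G.ncard : ℝ) ≤ 2 ^ m * Hs.ncard := by exact_mod_cast hcard1
  have hM' : ({f : (𝓞 F)[X] | Ht g B f}.ncard : ℝ) ≤
      (2 * Cp) ^ (2 * g) * (2 * Q) ^ D * (B₁ : ℝ) ^ D := by
    have e1 : ({f : (𝓞 F)[X] | Ht g B f}.ncard : ℝ) ≤ (2 * Cp) ^ (2 * g) * (B : ℝ) ^ D :=
      (ht_card hCp hpt g B hB1).2
    refine e1.trans ?_
    rw [mul_assoc, ← mul_pow]
    have e2 : (B : ℝ) ≤ 2 * Q * B₁ := by exact_mod_cast hBQ2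
    gcongr
  calc c / 2 / (Pn * 2 ^ m * ((2 * Cp) ^ (2 * g) * (2 * Q) ^ D)) *
        ({f : (𝓞 F)[X] | Ht g B f}.ncard : ℝ)
      ≤ c / 2 / (Pn * 2 ^ m * ((2 * Cp) ^ (2 * g) * (2 * Q) ^ D)) *
        ((2 * Cp) ^ (2 * g) * (2 * Q) ^ D * (B₁ : ℝ) ^ D) :=
        mul_le_mul_of_nonneg_left hM' (by positivity)
    _ = c / 2 * (B₁ : ℝ) ^ D / (Pn * 2 ^ m) := by
        field_simp
    _ ≤ (Pn * (G.ncard : ℝ)) / (Pn * 2 ^ m) := by gcongr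
    _ ≤ (Pn * (2 ^ m * Hs.ncard)) / (Pn * 2 ^ m) := by gcongr
    _ = Hs.ncard := by field_simp

end cnt

end Pool.Agent.H458.RC
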