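import Pool.Agent.H458.RC.Fam
import Pool.Graph.R_pool_sql_team_seeded_63374d34.N874.TF.Top
import Pool.Graph.R_pool_sql_team_seeded_63374d34.N710.PF.Exs
import Pool.Graph.R_pool_sql_team_seeded_63374d34.N160.QM.GEN
import Pool.Graph.R_pool_sql_team_seeded_63374d34.N891.QM.Spl
import Pool.Graph.R_pool_sql_team_seeded_63374d34.N222.QM.UR
import Pool.Graph.R_pool_sql_team_seeded_63374d34.N835.QM.SPD

/-!
# Sets of primes which split completely in a given extension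
-/

set_option autoImplicit false
set_option linter.all false

open Polynomial NumberField IsDedekindDomain
open scoped Classical IntermediateField

namespace Pool.Agent.H458.RC

open Pool.Agent.N783.PF (Ov IsGen fF GoodS SqF Cg rd sp)
open Pool.Agent.N874.QM (SplitMod Gen)
open Pool.Agent.N874.TF (Unr Spl exists_bel ov_bel eq_bel ov_val val_exp)

/-- Primes which are one modulo `8` and modulo `n` and modulo which `m` splits. -/
theorem split_primes (m : ℤ[X]) (hm : m.Monic) (n : ℕ) (hn : 0 < n) (W r : ℕ) :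
    ∃ S : Finset ℕ, S.card = r ∧ ∀ q ∈ S, q.Prime ∧ W < q ∧ q % 8 = 1 ∧ q ≡ 1 [MOD n] ∧
      SplitMod q m := by
  obtain ⟨S, hS1, hS2⟩ := ((Pool.Agent.N891.QM.infinite_split (m * cyclotomic n ℤ)
    (hm.mul (cyclotomic.monic n ℤ))).sdiff (Set.finite_Iic (max W n))).exists_subset_card_eq r
  refine ⟨S, hS2, fun q hq => ?_⟩
  obtain ⟨⟨h1, h2, h3⟩, h4⟩ := hS1 hq
  haveI : Fact q.Prime := ⟨h1⟩
  rw [Set.mem_Iic, not_le] at h4
  have h4W : W < q := (le_max_left _ _).trans_lt h4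
  have h4n : n < q := (le_max_right _ _).trans_lt h4
  rw [Polynomial.map_mul] at h3
  obtain ⟨h5, h6⟩ := (splits_mul (hm.map _).ne_zero ((cyclotomic.monic n ℤ).map _).ne_zero).1 h3
  refine ⟨h1, h4W, h2, ?_, Pool.Agent.N891.QM.splitMod_of_splits q m hm h5⟩
  rw [map_cyclotomic_int] at h6
  have hnq : ¬ q ∣ n := fun h => absurd (Nat.le_of_dvd hn h) (by omega)
  haveI : NeZero ((n : ℕ) : ZMod q) := ⟨by
    rw [Ne, ZMod.natCast_eq_zero_iff]
    exact hnq⟩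
  have hdeg : (cyclotomic n (ZMod q)).degree ≠ 0 := by
    rw [degree_cyclotomic]
    exact_mod_cast (Nat.totient_pos.2 hn).ne'
  obtain ⟨x, hx⟩ := h6.exists_eval_eq_zero hdeg
  have hpr : IsPrimitiveRoot x n := isRoot_cyclotomic_iff.1 hx
  have hx0 : x ≠ 0 := hpr.ne_zero hn.ne'
  have h7 := ZMod.orderOf_dvd_card_sub_one hx0
  rw [← hpr.eq_orderOf] at h7
  have h8 : 1 ≤ q := h1.one_lt.le
  exact ((Nat.modEq_iff_dvd' h8).2 h7).symm

/-- Complete splitting over the rationals. -/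
def TotQ (q : ℕ) (K : Type) [Field K] [NumberField K] : Prop :=
  ∀ 𝔓 : HeightOneSpectrum (𝓞 K), (q : 𝓞 K) ∈ 𝔓.asIdeal →
    𝔓.valuation K (q : K) = WithZero.exp (-1 : ℤ) ∧
    ∀ s : K, s ≠ 0 → ∃ s₀ : ℚ, 𝔓.valuation K (s - algebraMap ℚ K s₀) < 𝔓.valuation K s

/-- Many primes split completely in `K`. -/
theorem exists_tot (K : Type) [Field K] [NumberField K] [IsGalois ℚ K] (n : ℕ) (hn : 0 < n)
    (W r : ℕ) : ∃ S : Finset ℕ, S.card = r ∧ ∀ q ∈ S, q.Prime ∧ W < q ∧ q % 8 = 1 ∧ q ≡ 1 [MOD n] ∧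
      TotQ q K := by
  obtain ⟨γ, m, δ, hG, hdeg⟩ := Pool.Agent.N160.QM.gen K
  obtain ⟨S, hS, hS2⟩ := split_primes m hG.monic n hn
    (max (max W δ) (discr ℚ).natAbs) r
  refine ⟨S, hS, fun q hq => ?_⟩
  obtain ⟨h1, h2, h3, h4, h5⟩ := hS2 q hq
  have hqW : W < q := ((le_max_left _ _).trans (le_max_left _ _)).trans_lt h2
  have hqδ : δ < q := ((le_max_right _ _).trans (le_max_left _ _)).trans_lt h2
  have hqd : (discr ℚ).natAbs < q := (le_max_right _ _).trans_lt h2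
  refine ⟨h1, hqW, h3, h4, fun 𝔓 h𝔓 => ?_⟩
  have hδ0 : δ ≠ 0 := hG.ne
  have hδ : (δ : 𝓞 K) ∉ 𝔓.asIdeal := by
    intro hmem
    have hcop : Nat.Coprime q δ := (h1.coprime_iff_not_dvd).2 fun h =>
      absurd (Nat.le_of_dvd (Nat.pos_of_ne_zero hδ0) h) (by omega)
    obtain ⟨a, b, hab⟩ := Nat.isCoprime_iff_coprime.2 hcop
    apply 𝔓.isPrime.ne_top
    rw [Ideal.eq_top_iff_one]
    have h8 : ((a : ℤ) : 𝓞 K) * (q : 𝓞 K) + ((b : ℤ) : 𝓞 K) * (δ : 𝓞 K) = 1 := by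
      have h9 := congrArg (fun z : ℤ => (z : 𝓞 K)) hab
      push_cast at h9
      exact h9
    rw [← h8]
    exact Ideal.add_mem _ (Ideal.mul_mem_left _ _ h𝔓) (Ideal.mul_mem_left _ _ hmem)
  obtain ⟨𝔓₀, h𝔓₀⟩ := (Pool.Agent.N222.QM.UR.ur ℚ K γ m δ hG).1 𝔓 hδ
  refine ⟨?_, Pool.Agent.N835.QM.spd ℚ K γ m δ hG q h1 h5 𝔓 h𝔓 hδ⟩
  have e : (q : K) = algebraMap ℚ K (q : ℚ) := (map_natCast _ _).symm
  have hlt : 𝔓.valuation K (q : K) < 1 := (Pool.Agent.N874.QM.ov_val q 𝔓).1 h𝔓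
  rw [e, h𝔓₀] at hlt ⊢
  have hmem : ((q : ℕ) : 𝓞 ℚ) ∈ 𝔓₀.asIdeal := (Pool.Agent.N874.QM.ov_val q 𝔓₀).2 hlt
  have h6 := val_exp (v := 𝔓₀) (a := ((q : ℕ) : 𝓞 ℚ)) hmem
    (Pool.Agent.N710.PF.not_mem_sq h1 hqd 𝔓₀.isPrime)
  have e2 : ((((q : ℕ) : 𝓞 ℚ)) : ℚ) = (q : ℚ) := map_natCast (algebraMap (𝓞 ℚ) ℚ) q
  rw [e2] at h6
  exact h6

section tower

variable {F N K : Type} [Field F] [NumberField F] [Field N] [NumberField N] [Field K] [NumberField K]
  [Algebra F N] [Algebra N K]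

/-- The integers modulo a prime over `q`. -/
theorem int_mem {q : ℕ} (hq : q.Prime) {w : HeightOneSpectrum (𝓞 K)} (h : (q : 𝓞 K) ∈ w.asIdeal)
    (a : ℤ) : ((a : ℤ) : 𝓞 K) ∈ w.asIdeal ↔ (q : ℤ) ∣ a := by
  constructor
  · intro ha
    by_contra hd
    have hcop : IsCoprime (q : ℤ) a :=
      ((Nat.prime_iff_prime_int.1 hq).coprime_iff_not_dvd).2 hd
    obtain ⟨x, y, hxy⟩ := hcop
    apply w.isPrime.ne_top
    rw [Ideal.eq_top_iff_one]
    have h8 : ((x : ℤ) : 𝓞 K) * (q : 𝓞 K) + ((y : ℤ) : 𝓞 K) * ((a : ℤ) : 𝓞 K) = 1 := by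
      have h9 := congrArg (fun z : ℤ => (z : 𝓞 K)) hxy
      push_cast at h9
      exact h9
    rw [← h8]
    exact Ideal.add_mem _ (Ideal.mul_mem_left _ _ h) (Ideal.mul_mem_left _ _ ha)
  · rintro ⟨b, rfl⟩
    push_cast
    exact Ideal.mul_mem_right _ _ h

theorem int_val {q : ℕ} (hq : q.Prime) {w : HeightOneSpectrum (𝓞 K)} (h : (q : 𝓞 K) ∈ w.asIdeal)
    (a : ℤ) : w.valuation K (a : K) < 1 ↔ (q : ℤ) ∣ a := by
  rw [← int_mem hq h, ← HeightOneSpectrum.valuation_lt_one_iff_mem (K := K)]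
  have e : algebraMap (𝓞 K) K ((a : ℤ) : 𝓞 K) = (a : K) := map_intCast _ _
  change _ ↔ w.valuation K (algebraMap (𝓞 K) K ((a : ℤ) : 𝓞 K)) < 1
  rw [e]

theorem int_val_le (w : HeightOneSpectrum (𝓞 K)) (a : ℤ) : w.valuation K (a : K) ≤ 1 := by
  have e : algebraMap (𝓞 K) K ((a : ℤ) : 𝓞 K) = (a : K) := map_intCast _ _
  rw [← e]
  exact w.valuation_le_one _

/-- A rational number which is a unit is congruent to an integer. -/
theorem exists_int {q : ℕ} (hq : q.Prime) {w : HeightOneSpectrum (𝓞 K)}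
    (h : (q : 𝓞 K) ∈ w.asIdeal) (s : ℚ) (hs : w.valuation K (algebraMap ℚ K s) = 1) :
    ∃ c : ℤ, w.valuation K ((c : K) - algebraMap ℚ K s) < 1 := by
  have hden0 : (s.den : K) ≠ 0 := by exact_mod_cast s.den_ne_zero
  have e0 : algebraMap ℚ K s = (s.num : K) / (s.den : K) := by
    rw [eq_ratCast]
    exact Rat.cast_def s
  have hmul : w.valuation K (s.num : K) = w.valuation K (s.den : K) := by
    rw [e0, map_div₀] at hs
    have h1 : w.valuation K (s.den : K) ≠ 0 := (Valuation.ne_zero_iff _).2 hden0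
    exact (div_eq_one_iff_eq h1).1 hs
  have hdq : ¬ (q : ℤ) ∣ (s.den : ℤ) := by
    intro hd
    have h1 := (int_val hq h (s.den : ℤ)).2 hd
    rw [Int.cast_natCast, ← hmul] at h1
    have h2 := (int_val hq h s.num).1 h1
    have h3 := s.reduced
    have h4 : q ∣ Nat.gcd s.num.natAbs s.den :=
      Nat.dvd_gcd (Int.natCast_dvd.1 h2) (Int.natCast_dvd_natCast.1 hd)
    rw [h3] at h4
    exact hq.one_lt.ne' (Nat.dvd_one.1 h4)
  obtain ⟨x, y, hxy⟩ := ((Nat.prime_iff_prime_int.1 hq).coprime_iff_not_dvd).2 hdq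
  -- `y den = 1` modulo `q`
  refine ⟨y * s.num, ?_⟩
  have hden1 : w.valuation K (s.den : K) = 1 := by
    refine le_antisymm (by have := int_val_le w (s.den : ℤ); rwa [Int.cast_natCast] at this)
      (not_lt.1 fun hlt => hdq ?_)
    rw [← Int.cast_natCast] at hlt
    exact (int_val hq h _).1 hlt
  have e1 : ((y * s.num : ℤ) : K) - algebraMap ℚ K s =
      (((y * s.den - 1) * s.num : ℤ) : K) / (s.den : K) := by
    rw [e0]
    field_simp
    push_cast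
    ring
  rw [e1, map_div₀, hden1, div_one, int_val hq h]
  refine Dvd.dvd.mul_right ⟨-x, ?_⟩ _
  linear_combination hxy

/-- The primes over `q` of a subfield split completely in the intermediate fields. -/
theorem spl_of {q : ℕ} (hq : q.Prime) (hK : TotQ q K) (v : HeightOneSpectrum (𝓞 F))
    (hv : (q : 𝓞 F) ∈ v.asIdeal) : Spl v N := by
  have key : ∀ w : HeightOneSpectrum (𝓞 N), Ov v.asIdeal w →
      ∃ 𝔓 : HeightOneSpectrum (𝓞 K), (q : 𝓞 K) ∈ 𝔓.asIdeal ∧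
        (∀ x : N, 𝔓.valuation K (algebraMap N K x) = w.valuation N x) ∧
        w.valuation N (q : N) = WithZero.exp (-1 : ℤ) := by
    intro w hw
    obtain ⟨𝔓, e, he⟩ := Pool.Agent.N874.TQ.exists_over K w
    have hqw : (q : 𝓞 N) ∈ w.asIdeal := by
      have := hw _ hv
      rwa [map_natCast] at this
    have h1 : w.valuation N (q : N) < 1 := (Pool.Agent.N874.QM.ov_val q w).1 hqw
    have he0 : e ≠ 0 := by
      rintro rfl
      obtain ⟨p₁, hp₁, a3⟩ := Pool.Agent.N891.PQ.exists_below 𝔓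
      have h3 := (Pool.Agent.N874.QM.ov_val p₁ 𝔓).1 a3
      rw [← map_natCast (algebraMap N K), he, pow_zero] at h3
      exact lt_irrefl _ h3
    have h2 : (q : 𝓞 K) ∈ 𝔓.asIdeal := by
      refine (Pool.Agent.N874.QM.ov_val q 𝔓).2 ?_
      rw [← map_natCast (algebraMap N K), he]
      exact pow_lt_one' h1 he0
    have h3 := (hK 𝔓 h2).1
    rw [← map_natCast (algebraMap N K), he] at h3
    have h4 := Pool.Agent.N874.TW.exp_pow h3
    subst h4
    exact ⟨𝔓, h2, fun x => by rw [he, pow_one], by rwa [pow_one] at h3⟩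
  refine ⟨fun w hw x => ?_, fun w hw b => ?_⟩
  · obtain ⟨𝔓, -, -, h3⟩ := key w hw
    haveI hl : w.asIdeal.LiesOver v.asIdeal := by
      refine ⟨?_⟩
      haveI : v.asIdeal.IsMaximal := v.isMaximal
      refine Ideal.IsMaximal.eq_of_le this ?_ fun a ha => hw a ha
      intro h0
      exact w.isPrime.ne_top (by
        rw [Ideal.eq_top_iff_one]
        have h1 : (1 : 𝓞 F) ∈ w.asIdeal.under (𝓞 F) := by rw [h0]; trivial
        have h2 : algebraMap (𝓞 F) (𝓞 N) 1 ∈ w.asIdeal := h1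
        rwa [map_one] at h2)
    obtain ⟨e, he⟩ : ∃ e : ℕ, ∀ y : F, w.valuation N (algebraMap F N y) = v.valuation F y ^ e :=
      ⟨_, fun y => (HeightOneSpectrum.valuation_liesOver N v w y).symm⟩
    rw [← map_natCast (algebraMap F N), he] at h3
    have h4 := Pool.Agent.N874.TW.exp_pow h3
    rw [he, h4, pow_one]
  · obtain ⟨𝔓, h2, hval, -⟩ := key w hw
    obtain ⟨a, rfl⟩ := Ideal.Quotient.mk_surjective b
    by_cases ha : a ∈ w.asIdeal
    · exact ⟨0, by rw [map_zero]; exact (Ideal.Quotient.eq_zero_iff_mem.2 ha).symm⟩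
    have h1 : w.valuation N (a : N) = 1 := by
      refine le_antisymm (w.valuation_le_one a) (not_lt.1 fun h => ha ?_)
      exact (HeightOneSpectrum.valuation_lt_one_iff_mem (K := N) w a).1 h
    have ha0 : algebraMap N K (a : N) ≠ 0 := by
      rw [Ne, map_eq_zero]
      intro h0
      rw [h0, map_zero] at h1
      exact zero_ne_one h1
    obtain ⟨s₀, hs₀⟩ := (hK 𝔓 h2).2 _ ha0
    have hv1 : 𝔓.valuation K (algebraMap N K (a : N)) = 1 := by rw [hval, h1]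
    rw [hv1] at hs₀
    have hs1 : 𝔓.valuation K (algebraMap ℚ K s₀) = 1 := by
      have e : algebraMap ℚ K s₀ = algebraMap N K (a : N) -
          (algebraMap N K (a : N) - algebraMap ℚ K s₀) := by ring
      rw [e, Valuation.map_sub_eq_of_lt_left _ (by rw [hv1]; exact hs₀), hv1]
    obtain ⟨c, hc⟩ := exists_int hq h2 s₀ hs1
    refine ⟨(c : 𝓞 F), ?_⟩
    rw [RingHom.comp_apply, map_intCast, eq_comm, Ideal.Quotient.eq,
      ← HeightOneSpectrum.valuation_lt_one_iff_mem (K := N), ← hval]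
    have e : algebraMap N K (algebraMap (𝓞 N) N (a - ((c : ℤ) : 𝓞 N))) =
        (algebraMap N K (a : N) - algebraMap ℚ K s₀) - ((c : K) - algebraMap ℚ K s₀) := by
      rw [map_sub, map_sub, map_intCast, map_intCast]
      ring
    rw [e]
    exact (Valuation.map_sub _ _ _).trans_lt (max_lt hs₀ hc)

end tower

/-- The sets of primes, splitting completely in `N`. -/
theorem exs' (F N : Type) [Field F] [NumberField F] [Field N] [NumberField N] [Algebra F N]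
    (g W n : ℕ) (hg : 1 ≤ g) (hn : 0 < n) (m : ℕ) :
    ∃ (S : Finset ℕ) (𝔮 : ℕ → Ideal (𝓞 F)) (h P : ℕ → (𝓞 F)[X]),
      GoodS g W S 𝔮 h P ∧ S.card = m ∧ (∀ q ∈ S, q ≡ 1 [MOD n]) ∧
      ∀ q ∈ S, ∀ v : HeightOneSpectrum (𝓞 F), (q : 𝓞 F) ∈ v.asIdeal → Spl v N := by
  -- a Galois extension of the rationals containing `N`
  letI : Algebra ℚ (AlgebraicClosure N) := inferInstance
  haveI : Algebra.IsAlgebraic ℚ (AlgebraicClosure N) := Algebra.IsAlgebraic.trans ℚ N _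
  haveI : IsAlgClosure ℚ (AlgebraicClosure N) := ⟨inferInstance, inferInstance⟩
  haveI : Normal ℚ (AlgebraicClosure N) :=
    IsAlgClosure.normal ℚ (AlgebraicClosure N)
  let K : Type := IntermediateField.normalClosure ℚ N (AlgebraicClosure N)
  haveI : FiniteDimensional ℚ K := inferInstance
  haveI : NumberField K := NumberField.mk
  haveI : Normal ℚ K := normalClosure.normal ℚ N (AlgebraicClosure N)
  haveI : IsGalois ℚ K := ⟨⟩
  letI : Algebra N K := inferInstance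
  obtain ⟨S, hS, hS2⟩ := exists_tot K n hn (W + (2 * g + 1) + (discr F).natAbs) m
  have hdata : ∀ q : ℕ, ∃ (𝔮 : Ideal (𝓞 F)) (h A : (𝓞 F)[X]), q ∈ S →
    (∀ 𝔭 : Ideal (𝓞 F), 𝔭.IsPrime → (q : 𝓞 F) ∉ 𝔭 ^ 2) ∧
    𝔮.IsPrime ∧ (q : 𝓞 F) ∈ 𝔮 ∧
    h.Monic ∧ h.natDegree = 2 * g ∧ Irreducible (rd 𝔮 h) ∧
    A.Monic ∧ A.natDegree = 2 * g + 1 ∧ A.coeff (2 * g) = 0 ∧
    Cg 𝔮 A (X * h) ∧
    ∀ 𝔭 : Ideal (𝓞 F), 𝔭.IsPrime → (q : 𝓞 F) ∈ 𝔭 → 𝔭 ≠ 𝔮 → Irreducible (rd 𝔭 A) := by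
    intro q
    by_cases hq : q ∈ S
    · obtain ⟨h1, h2, h3⟩ := hS2 q hq
      obtain ⟨𝔮, h, A, hh⟩ := Pool.Agent.N710.PF.exists_data F g q hg h1 (by omega) (by omega)
      exact ⟨𝔮, h, A, fun _ => hh⟩
    · exact ⟨⊥, 0, 0, fun h => absurd h hq⟩
  choose 𝔮 h A hh using hdata
  refine ⟨S, 𝔮, h, A, fun q hq => ?_, hS, fun q hq => (hS2 q hq).2.2.2.1, fun q hq v hv =>
    spl_of (K := K) (hS2 q hq).1 (hS2 q hq).2.2.2.2 v hv⟩
  obtain ⟨h1, h2, h3, -⟩ := hS2 q hq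
  exact ⟨h1, by omega, by omega, h3, hh q hq⟩

end Pool.Agent.H458.RC
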