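import Pool.Agent.H458.RC.Box

/-!
# Many polynomials in the family, in a given residue class, with positive derivative at the real places
-/

set_option autoImplicit false
set_option linter.all false

open Polynomial NumberField IsDedekindDomain
open scoped Classical

namespace Pool.Agent.H458.RC

open Pool.Agent.N352.PJ (dd pol dis Dy D2)
open Pool.Agent.N352.PF (dg Bal nv rv Bz Bx S_CL bxT)
open Pool.Agent.N783.PF (Bd Cg sp rd Ht GoodS GoodF Fam fF)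
open Pool.Agent.N951.PF
open Pool.Agent.N300.TF (gfi)

theorem ne_bot_of_nat {F : Type} [Field F] [NumberField F] (𝔭 : Ideal (𝓞 F)) (n : ℕ) (hn : 0 < n)
    (hm : (n : 𝓞 F) ∈ 𝔭) : 𝔭 ≠ ⊥ := by
  intro h0
  rw [h0, Ideal.mem_bot] at hm
  have : n = 0 := by exact_mod_cast hm
  omega

/-- Separable modulo a prime ideal. -/
theorem sep_of_irr' {F : Type} [Field F] [NumberField F] {𝔭 : Ideal (𝓞 F)} (hp : 𝔭.IsPrime)
    (h0 : 𝔭 ≠ ⊥) {f : (𝓞 F)[X]} (h : Irreducible (rd 𝔭 f)) : (rd 𝔭 f).Separable := by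
  haveI hmax : 𝔭.IsMaximal := hp.isMaximal h0
  letI : Field (𝓞 F ⧸ 𝔭) := Ideal.Quotient.field 𝔭
  haveI : Finite (𝓞 F ⧸ 𝔭) := Ideal.finiteQuotientOfFreeOfNeBot 𝔭 h0
  exact PerfectField.separable_of_irreducible h

/-- The conditions at the small primes, with given residues modulo `n`. -/
theorem gfn (F : Type) [Field F] [NumberField F] (g M n : ℕ) (hg : 1 ≤ g) (hn : 0 < n)
    (f₂ : (𝓞 F)[X]) (hmon₂ : f₂.Monic) (hdeg₂ : f₂.natDegree = 2 * g + 1)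
    (htr₂ : f₂.coeff (2 * g) = 0)
    (hirr₂ : ∀ 𝔭 : Ideal (𝓞 F), 𝔭.IsPrime → (n : 𝓞 F) ∈ 𝔭 → Irreducible (rd 𝔭 f₂)) :
    ∃ (W : ℕ) (f₁ : (𝓞 F)[X]), f₁.Monic ∧ f₁.natDegree = 2 * g + 1 ∧ f₁.coeff (2 * g) = 0 ∧
      0 < W ∧ 2 ∣ W ∧ n ∣ W ∧ Cg (sp F n) f₁ f₂ ∧
      (∀ 𝔭 : Ideal (𝓞 F), 𝔭.IsPrime → (W : 𝓞 F) ∈ 𝔭 → Irreducible (rd 𝔭 f₁)) ∧
      (∀ p : ℕ, p.Prime → p ≤ M → p ∣ W) := by
  obtain ⟨W₀, f₀, hmon₀, hdeg₀, htr₀, hW₀, h2W₀, hirr₀, -, hpW₀⟩ :=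
    gfi Pool.Agent.N250.TF.irrk F g M hg
  -- the part of `W₀` prime to `n`
  set W' : ℕ := ∏ p ∈ W₀.primeFactors.filter (fun p => ¬ p ∣ n), p with hW'
  have hW'0 : 0 < W' := Finset.prod_pos fun p hp =>
    (Nat.prime_of_mem_primeFactors (Finset.mem_filter.1 hp).1).pos
  have hcop : Nat.Coprime n W' := by
    rw [hW']
    refine Nat.Coprime.prod_right fun p hp => ?_
    have h1 := Finset.mem_filter.1 hp
    exact (((Nat.prime_of_mem_primeFactors h1.1).coprime_iff_not_dvd).2 h1.2).symm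
  have hdiv : ∀ p : ℕ, p.Prime → p ∣ W₀ → p ∣ n * W' := by
    intro p hp hpd
    by_cases hpn : p ∣ n
    · exact Dvd.dvd.mul_right hpn _
    · refine Dvd.dvd.mul_left ?_ _
      exact Finset.dvd_prod_of_mem (fun p => p) (Finset.mem_filter.2
        ⟨Nat.mem_primeFactors.2 ⟨hp, hpd, hW₀.ne'⟩, hpn⟩)
  obtain ⟨u, v, huv⟩ := Nat.isCoprime_iff_coprime.2 hcop
  -- `e` is one modulo `n` and zero modulo `W'`
  obtain ⟨e, he⟩ : ∃ e : 𝓞 F, e = (v : 𝓞 F) * (W' : 𝓞 F) := ⟨_, rfl⟩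
  have he1 : (1 : 𝓞 F) - e = (u : 𝓞 F) * (n : 𝓞 F) := by
    have h1 := congrArg (fun z : ℤ => (z : 𝓞 F)) huv
    push_cast at h1
    rw [he, ← h1]
    ring
  obtain ⟨f₁, hf₁⟩ : ∃ f₁ : (𝓞 F)[X], f₁ = C e * f₂ + C (1 - e) * f₀ := ⟨_, rfl⟩
  have hco : ∀ j, f₁.coeff j = e * f₂.coeff j + (1 - e) * f₀.coeff j := by
    intro j
    rw [hf₁, coeff_add, coeff_C_mul, coeff_C_mul]
  have htop : f₁.coeff (2 * g + 1) = 1 := by
    have h1 : f₂.coeff (2 * g + 1) = 1 := by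
      rw [← hdeg₂]
      exact hmon₂
    have h2 : f₀.coeff (2 * g + 1) = 1 := by
      rw [← hdeg₀]
      exact hmon₀
    rw [hco, h1, h2]
    ring
  have hle : f₁.natDegree ≤ 2 * g + 1 := by
    rw [Polynomial.natDegree_le_iff_coeff_eq_zero]
    intro N hN
    rw [hco, coeff_eq_zero_of_natDegree_lt (by rw [hdeg₂]; exact hN),
      coeff_eq_zero_of_natDegree_lt (by rw [hdeg₀]; exact hN)]
    ring
  have hdeg : f₁.natDegree = 2 * g + 1 :=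
    Polynomial.natDegree_eq_of_le_of_coeff_ne_zero hle (by rw [htop]; exact one_ne_zero)
  have hmon : f₁.Monic := by
    rw [Polynomial.Monic, Polynomial.leadingCoeff, hdeg, htop]
  have hc₂ : Cg (sp F n) f₁ f₂ := by
    intro j
    rw [hco, Ideal.mem_span_singleton]
    refine ⟨(u : 𝓞 F) * (f₀.coeff j - f₂.coeff j), ?_⟩
    linear_combination (f₀.coeff j - f₂.coeff j) * he1
  have hc₀ : ∀ j, (W' : 𝓞 F) ∣ f₁.coeff j - f₀.coeff j := by
    intro j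
    rw [hco]
    refine ⟨(v : 𝓞 F) * (f₂.coeff j - f₀.coeff j), ?_⟩
    linear_combination (f₂.coeff j - f₀.coeff j) * he
  have hrdeq : ∀ (𝔭 : Ideal (𝓞 F)) (a b : (𝓞 F)[X]), (∀ j, a.coeff j - b.coeff j ∈ 𝔭) →
      rd 𝔭 a = rd 𝔭 b := by
    intro 𝔭 a b h
    ext j
    rw [rd, rd, coeff_map, coeff_map]
    exact Ideal.Quotient.eq.2 (h j)
  refine ⟨n * W', f₁, hmon, hdeg, ?_, Nat.mul_pos hn hW'0, hdiv 2 Nat.prime_two h2W₀,
    dvd_mul_right _ _, hc₂, ?_, fun p hp hpM => hdiv p hp (hpW₀ p hp hpM)⟩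
  · rw [hco, htr₂, htr₀]
    ring
  · intro 𝔭 hp hmem
    rw [Nat.cast_mul] at hmem
    rcases hp.mem_or_mem hmem with h1 | h1
    · rw [hrdeq 𝔭 f₁ f₂ fun j => (Ideal.span_singleton_le_iff_mem _).2 h1 (hc₂ j)]
      exact hirr₂ 𝔭 hp h1
    · rw [hrdeq 𝔭 f₁ f₀ fun j => Ideal.mem_of_dvd _ (hc₀ j) h1]
      have hb := ne_bot_of_nat 𝔭 W' hW'0 h1
      have hW₀m : (W₀ : 𝓞 F) ∈ 𝔭 := by
        rw [hW', Nat.cast_prod] at h1
        obtain ⟨p, hpm, hpp⟩ := (Ideal.IsPrime.prod_mem_iff (hp := hp)).1 h1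
        obtain ⟨b, hb⟩ := Nat.dvd_of_mem_primeFactors (Finset.mem_filter.1 hpm).1
        rw [hb, Nat.cast_mul]
        exact Ideal.mul_mem_right _ _ hpp
      exact hirr₀ ⟨𝔭, hp, hb⟩ hW₀m

/-- Many polynomials in the family in the given residue class, with positive derivative at all real
places. -/
theorem famr (F : Type) [Field F] [NumberField F] (g : ℕ) (hg : 1 ≤ g) (K M' n : ℕ) (hn : 0 < n)
    (f₂ : (𝓞 F)[X]) (hmon₂ : f₂.Monic) (hdeg₂ : f₂.natDegree = 2 * g + 1)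
    (htr₂ : f₂.coeff (2 * g) = 0)
    (hirr₂ : ∀ 𝔭 : Ideal (𝓞 F), 𝔭.IsPrime → (n : 𝓞 F) ∈ 𝔭 → Irreducible (rd 𝔭 f₂)) :
    ∃ (W : ℕ) (f₁ : (𝓞 F)[X]), K ≤ W ∧ GoodF g W f₁ ∧ n ∣ W ∧ Cg (sp F n) f₁ f₂ ∧
      (∀ p : ℕ, p.Prime → p ≤ M' → p ∣ W) ∧
      (∀ 𝔭 : Ideal (𝓞 F), 𝔭.IsPrime → (W : 𝓞 F) ∈ 𝔭 → Irreducible (rd 𝔭 f₁)) ∧
      ∃ c : ℝ, 0 < c ∧ ∀ (S : Finset ℕ) (𝔮 : ℕ → Ideal (𝓞 F)) (h P : ℕ → (𝓞 F)[X]),
        GoodS g W S 𝔮 h P → ∃ B₀ : ℕ, ∀ B ≥ B₀,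
        c * (B : ℝ) ^ (Module.finrank ℚ F * dd g) ≤
          (((∏ q ∈ S, q ^ (2 * g)) ^ Module.finrank ℚ F : ℕ) : ℝ) *
          ({f : (𝓞 F)[X] | Fam g B W f₁ S P f ∧ Mono f}.ncard : ℝ) := by
  have h3 := Pool.Agent.N935.PF.WK.wk
  have h4 := Pool.Agent.N352.PF.STR331.str Pool.Agent.N75.PF.cu Pool.Agent.N364.PF.cl
    Pool.Agent.N195.PF.pf
  have h5 := Pool.Agent.N195.PF.dscp
  have h7 := Pool.Agent.N195.PF.pf
  obtain ⟨C₁, hC₁, hBX⟩ := bxT F g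
  obtain ⟨C₃, hC₃, hCL⟩ := Pool.Agent.N364.PF.cl F
  have hE := E_pos g
  set R : ℕ := ((2 * E g) ^ dg F * C₃) ^ (2 * g) with hR
  have hR0 : 0 < R := by positivity
  obtain ⟨M, C₂, hC₂, hM⟩ := smlk F g hg (4 * (C₁ * R))
  obtain ⟨p₀, hp₀K, hp₀⟩ := Nat.exists_infinite_primes K
  obtain ⟨W, f₁, hmon, hdeg, htr, hW0, htwo, hnW, hcg₂, hirr, hW⟩ :=
    gfn F g (max (max p₀ (max M (2 * g + 1))) M') n hg hn f₂ hmon₂ hdeg₂ htr₂ hirr₂
  have hKW : K ≤ W := hp₀K.trans (Nat.le_of_dvd hW0 (hW p₀ hp₀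
    ((le_max_left _ _).trans (le_max_left _ _))))
  have h2W : ∀ v : Ideal (𝓞 F), (2 : 𝓞 F) ∈ v → (W : 𝓞 F) ∈ v := by
    intro v hv
    obtain ⟨m, hm⟩ := htwo
    rw [hm, Nat.cast_mul, Nat.cast_ofNat]
    exact Ideal.mul_mem_right _ _ hv
  have hsep : ∀ 𝔭 : Ideal (𝓞 F), 𝔭.IsPrime → (W : 𝓞 F) ∈ 𝔭 → (rd 𝔭 f₁).Separable :=
    fun 𝔭 hp hm => sep_of_irr' hp (ne_bot_of_nat 𝔭 W hW0 hm) (hirr 𝔭 hp hm)
  have hgood : GoodF g W f₁ := ⟨hmon, hdeg, htr, hW0, htwo, fun 𝔭 hp h2m => hirr 𝔭 hp (h2W 𝔭 h2m),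
    hsep⟩
  refine ⟨W, f₁, hKW, hgood, hnW, hcg₂, fun p hp hpM => hW p hp (hpM.trans (le_max_right _ _)),
    hirr, 1 / (2 * R * (W : ℝ) ^ (2 * g * dg F)), by positivity, fun S 𝔮 h P hS => ?_⟩
  obtain ⟨Q, hQ⟩ : ∃ Q : ℕ, Q = ∏ q ∈ S, q := ⟨_, rfl⟩
  have hQ0 : 0 < Q := by
    rw [hQ]
    exact Finset.prod_pos fun q hq => (hS q hq).1.pos
  have hWQ : 0 < W * Q := Nat.mul_pos hW0 hQ0
  -- residues
  have hcrt : ∀ j : Fin (2 * g), ∃ x : 𝓞 F, (W : 𝓞 F) ∣ x - f₁.coeff j ∧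
      ∀ q ∈ S, (q : 𝓞 F) ∣ x - (P q).coeff j := fun j =>
    crt W S (fun q hq => ⟨(hS q hq).1, fun hd =>
      absurd (Nat.le_of_dvd hW0 hd) (by have := (hS q hq).2.1; omega)⟩) _ _
  choose A hA1 hA2 using hcrt
  obtain ⟨B₁, hB₁⟩ := h4 F g hg (1 / (4 * R * ((W * Q : ℕ) : ℝ) ^ (2 * g * dg F))) (by positivity)
  refine ⟨max B₁ (max (C₃ * (W * Q) * E g) (max (C₁ * (W * Q)) (C₂ * (W * Q)))), fun B hB => ?_⟩
  have hBB1 : B₁ ≤ B := (le_max_left _ _).trans hB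
  have hBC3 : C₃ * (W * Q) * E g ≤ B := ((le_max_left _ _).trans (le_max_right _ _)).trans hB
  have hBC1 : C₁ * (W * Q) ≤ B :=
    (((le_max_left _ _).trans (le_max_right _ _)).trans (le_max_right _ _)).trans hB
  have hBC2 : C₂ * (W * Q) ≤ B :=
    (((le_max_right _ _).trans (le_max_right _ _)).trans (le_max_right _ _)).trans hB
  have hB1 : 1 ≤ B := le_trans (Nat.mul_pos hC₁ hWQ) hBC1
  obtain ⟨hfin, -, hcardU⟩ := hBX B (W * Q) A hWQ hBC1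
  obtain ⟨hfin0, -, -⟩ := hBX B 1 (fun _ => 0) one_pos
    (le_trans (Nat.mul_le_mul_left C₁ hWQ) hBC1)
  have hBz : (Bz F g B).Finite := by
    refine hfin0.subset ?_
    intro a ha
    exact ⟨ha, fun j => by simp⟩
  have hsml := hM B (W * Q) A hWQ hBC2
  have hstr := hB₁ B hBB1
  have hVU := Vx_sub g B (W * Q) A
  have hVfin : (Vx g B (W * Q) A).Finite := hfin.subset hVU
  have hcard := Vx_card hC₃ hCL g B (W * Q) A hWQ hBC3 hVfin
  rw [← hR] at hcard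
  set V := Vx g B (W * Q) A with hV
  set U := Bx g B (W * Q) A with hU
  set U1 := {a ∈ U | ∃ v : HeightOneSpectrum (𝓞 F), M < nv v ∧ nv v ^ 2 < B ^ dg F ∧
    ((W * Q : ℕ) : 𝓞 F) ∉ v.asIdeal ∧ dis a ∈ v.asIdeal ^ 2} with hU1
  set U2 := {a ∈ Bz F g B | ∃ v : HeightOneSpectrum (𝓞 F), B ^ dg F ≤ nv v ^ 2 ∧
    dis a ∈ v.asIdeal ∧ D2 a ∈ v.asIdeal} with hU2
  have hU1f : U1.Finite := hfin.subset (Set.sep_subset _ _)
  have hU2f : U2.Finite := hBz.subset (Set.sep_subset _ _)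
  -- the good ones are in the family
  have key : pol '' (V \ (U1 ∪ U2)) ⊆ {f : (𝓞 F)[X] | Fam g B W f₁ S P f ∧ Mono f} := by
    rintro _ ⟨a, ⟨haV, ha⟩, rfl⟩
    have haU : a ∈ U := hVU haV
    refine ⟨?_, mono_pol hg hB1 haV⟩
    have haB : a ∈ Bz F g B := haU.1
    have haR : ∀ j, ((W * Q : ℕ) : 𝓞 F) ∣ a j - A j := haU.2
    have hone : Cg (sp F W) (pol a) f₁ := by
      apply cg_pol a hmon hdeg htr
      intro j
      rw [Ideal.mem_span_singleton]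
      have e1 : (W : 𝓞 F) ∣ a j - A j := dvd_trans (by push_cast; exact dvd_mul_right _ _) (haR j)
      have e2 : a j - f₁.coeff j = (a j - A j) + (A j - f₁.coeff j) := by ring
      rw [e2]
      exact dvd_add e1 (hA1 j)
    have hcon : ∀ q ∈ S, Cg (sp F q) (pol a) (P q) := by
      intro q hq
      obtain ⟨hq1, hq2, hq3, hq4, hq5, hq6, hq7, hq8, hq9, hq10, hq11, hq12, hq13, hq14, hq15⟩ :=
        hS q hq
      apply cg_pol a hq11 hq12 hq13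
      intro j
      rw [Ideal.mem_span_singleton]
      have e0 : (q : 𝓞 F) ∣ ((W * Q : ℕ) : 𝓞 F) := by
        have e3 : q ∣ W * Q := by
          rw [hQ]
          exact Dvd.dvd.mul_left (Finset.dvd_prod_of_mem (fun q => q) hq) W
        exact Nat.cast_dvd_cast e3
      have e1 : (q : 𝓞 F) ∣ a j - A j := dvd_trans e0 (haR j)
      have e2 : a j - (P q).coeff j = (a j - A j) + (A j - (P q).coeff j) := by ring
      rw [e2]
      exact dvd_add e1 (hA2 j q hq)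
    refine ⟨ht_pol haB, hone, hcon, fun 𝔭 hp hb hPd => ?_⟩
    obtain ⟨v, hv⟩ : ∃ v : HeightOneSpectrum (𝓞 F), v.asIdeal = 𝔭 := ⟨⟨𝔭, hp, hb⟩, rfl⟩
    subst hv
    have hPd' : dis a ∈ v.asIdeal ^ 2 := hPd
    have hPd1 : Pool.Agent.N352.PF.dsc g (pol a) ∈ v.asIdeal :=
      Ideal.pow_le_self two_ne_zero hPd
    haveI : Finite (𝓞 F ⧸ v.asIdeal) := v.asIdeal.finiteQuotientOfFreeOfNeBot v.ne_bot
    haveI : IsDomain (𝓞 F ⧸ v.asIdeal) := Ideal.Quotient.isDomain v.asIdeal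
    have hPW : (W : 𝓞 F) ∉ v.asIdeal := by
      intro hd
      refine h5 F g v (pol a) f₁ hg (pol_monic a) (pol_natDegree a) ?_ (hsep v.asIdeal v.isPrime hd)
        hPd1
      intro j
      exact (Ideal.span_singleton_le_iff_mem _).2 hd (hone j)
    have hPS : ∀ q ∈ S, (q : 𝓞 F) ∉ v.asIdeal := by
      intro q hq hd
      obtain ⟨hq1, hq2, hq3, hq4, hq5, hq6, hq7, hq8, hq9, hq10, hq11, hq12, hq13, hq14, hq15⟩ :=
        hS q hq
      have hc : ∀ j, (pol a).coeff j - (P q).coeff j ∈ v.asIdeal := fun j =>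
        (Ideal.span_singleton_le_iff_mem _).2 hd (hcon q hq j)
      by_cases hv : v.asIdeal = 𝔮 q
      · refine h5 F g v (pol a) (X * h q) hg (pol_monic a) (pol_natDegree a) ?_ ?_ hPd1
        · intro j
          have e1 : (pol a).coeff j - (X * h q).coeff j =
              ((pol a).coeff j - (P q).coeff j) + ((P q).coeff j - (X * h q).coeff j) := by ring
          rw [e1]
          refine Ideal.add_mem _ (hc j) ?_
          rw [hv]
          exact hq14 j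
        · have e1 : rv v (X * h q) = X * rv v (h q) := by
            rw [rv, rv, Polynomial.map_mul, Polynomial.map_X]
          rw [e1]
          have e2 : Irreducible (rv v (h q)) := by
            have e3 : Irreducible (rd v.asIdeal (h q)) := by
              rw [hv]
              exact hq10
            exact e3
          refine sep_X_mul e2 ?_
          rw [rv, hq8.natDegree_map, hq9]
          omega
      · refine h5 F g v (pol a) (P q) hg (pol_monic a) (pol_natDegree a) hc ?_ hPd1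
        exact sep_of_irr (hq15 v.asIdeal v.isPrime hd hv)
    have hPQ : ((W * Q : ℕ) : 𝓞 F) ∉ v.asIdeal := by
      intro hd
      rw [Nat.cast_mul] at hd
      rcases v.isPrime.mem_or_mem hd with hd | hd
      · exact hPW hd
      · rw [hQ, Nat.cast_prod] at hd
        obtain ⟨q, hq, hqm⟩ := (Ideal.IsPrime.prod_mem_iff (hp := v.isPrime)).1 hd
        exact hPS q hq hqm
    have hsmall : ∀ n : ℕ, 0 < n → (n : 𝓞 F) ∈ v.asIdeal →
        (∀ p : ℕ, p.Prime → p ∣ n → p ≤ max p₀ (max M (2 * g + 1))) → False := by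
      intro n hn hm hle
      obtain ⟨p, hp1, hp2, hp3⟩ := prime_factor v.asIdeal v.isPrime n hn hm
      have e1 := hW p hp1 ((hle p hp1 hp2).trans (le_max_left _ _))
      apply hPW
      obtain ⟨m, hm⟩ := e1
      rw [hm, Nat.cast_mul]
      exact Ideal.mul_mem_right _ _ hp3
    have hfac : ((2 * g + 1).factorial : 𝓞 F) ∉ v.asIdeal := by
      intro hd
      refine hsmall _ (Nat.factorial_pos _) hd fun p hp hpd => ?_
      exact ((hp.dvd_factorial).1 hpd).trans ((le_max_right _ _).trans (le_max_right _ _))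
    have hPM1 : M < nv v := by
      by_contra hc
      have hnv2 : 2 ≤ nv v := (h7 F).2.2 v
      refine hsmall (nv v) (by omega) (Ideal.absNorm_mem v.asIdeal) fun p hp hpd => ?_
      have e1 := Nat.le_of_dvd (by omega) hpd
      exact (e1.trans (not_lt.1 hc)).trans ((le_max_left _ _).trans (le_max_right _ _))
    have hBP : B ^ dg F ≤ nv v ^ 2 := by
      by_contra hc
      exact ha (Or.inl ⟨haU, v, hPM1, not_le.1 hc, hPQ, hPd'⟩)
    refine ⟨hBP, h3 F g v hg hfac a hPd' fun hD => ?_⟩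
    exact ha (Or.inr ⟨haB, v, hBP, hPd1, hD⟩)
  -- finiteness of the family
  have hFf : {f : (𝓞 F)[X] | Fam g B W f₁ S P f ∧ Mono f}.Finite := by
    refine (hBz.image pol).subset ?_
    rintro f ⟨hf, -⟩
    exact ⟨fun j => f.coeff j, bz_coeff hf.ht, (eq_pol hf.ht).symm⟩
  -- counting
  have c1 : (V \ (U1 ∪ U2)).ncard ≤ {f : (𝓞 F)[X] | Fam g B W f₁ S P f ∧ Mono f}.ncard := by
    rw [← Set.ncard_image_of_injective _ pol_inj]
    exact Set.ncard_le_ncard key hFf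
  have c2 : V.ncard ≤ (V \ (U1 ∪ U2)).ncard + (U1.ncard + U2.ncard) := by
    have e1 := Set.ncard_le_ncard_diff_add_ncard V (U1 ∪ U2) (hU1f.union hU2f)
    have e2 := Set.ncard_union_le U1 U2
    omega
  have hmp : 0 < (W * Q) ^ (2 * g * dg F) := by positivity
  have c3' : U.ncard ≤ C₁ * R * V.ncard := by
    have e1 : U.ncard * (W * Q) ^ (2 * g * dg F) ≤
        (C₁ * R * V.ncard) * (W * Q) ^ (2 * g * dg F) := by
      calc U.ncard * (W * Q) ^ (2 * g * dg F) ≤ C₁ * B ^ (dg F * dd g) := hcardU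
        _ ≤ C₁ * (R * (V.ncard * (W * Q) ^ (2 * g * dg F))) := Nat.mul_le_mul_left _ hcard
        _ = _ := by ring
    exact Nat.le_of_mul_le_mul_right e1 hmp
  have c3n : 4 * U1.ncard ≤ V.ncard := by
    have e0 : 0 < C₁ * R := Nat.mul_pos hC₁ hR0
    refine Nat.le_of_mul_le_mul_left ?_ e0
    calc (C₁ * R) * (4 * U1.ncard) = 4 * (C₁ * R) * U1.ncard := by ring
      _ ≤ U.ncard := hsml
      _ ≤ _ := c3'
  have c3 : (4 : ℝ) * U1.ncard ≤ V.ncard := by exact_mod_cast c3n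
  have hRr : (0 : ℝ) < R := by exact_mod_cast hR0
  have c4 : (B : ℝ) ^ (dg F * dd g) ≤
      R * (V.ncard * ((W * Q : ℕ) : ℝ) ^ (2 * g * dg F)) := by exact_mod_cast hcard
  have hP0 : (0 : ℝ) < ((W * Q : ℕ) : ℝ) ^ (2 * g * dg F) := by positivity
  have c5 : (4 : ℝ) * U2.ncard ≤ V.ncard := by
    have e1 : (U2.ncard : ℝ) ≤ 1 / (4 * R * ((W * Q : ℕ) : ℝ) ^ (2 * g * dg F)) *
        (R * (V.ncard * ((W * Q : ℕ) : ℝ) ^ (2 * g * dg F))) :=
      hstr.trans (mul_le_mul_of_nonneg_left c4 (by positivity))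
    have e2 : 1 / (4 * R * ((W * Q : ℕ) : ℝ) ^ (2 * g * dg F)) *
        (R * (V.ncard * ((W * Q : ℕ) : ℝ) ^ (2 * g * dg F))) = V.ncard / 4 := by
      field_simp
    rw [e2] at e1
    linarith
  have c6 : (V.ncard : ℝ) ≤ 2 * ({f : (𝓞 F)[X] | Fam g B W f₁ S P f ∧ Mono f}.ncard : ℝ) := by
    have e1 : (V.ncard : ℝ) ≤ ((V \ (U1 ∪ U2)).ncard : ℝ) + (U1.ncard + U2.ncard) := by
      exact_mod_cast c2
    have e2 : ((V \ (U1 ∪ U2)).ncard : ℝ) ≤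
        ({f : (𝓞 F)[X] | Fam g B W f₁ S P f ∧ Mono f}.ncard : ℝ) := by
      exact_mod_cast c1
    linarith
  have c7 : (((∏ q ∈ S, q ^ (2 * g)) ^ Module.finrank ℚ F : ℕ) : ℝ) =
      (Q : ℝ) ^ (2 * g * dg F) := by
    rw [hQ, Finset.prod_pow]
    push_cast
    rw [← pow_mul]
  rw [c7]
  have hW1 : (0 : ℝ) < (W : ℝ) ^ (2 * g * dg F) := by positivity
  have c8 : (B : ℝ) ^ (dg F * dd g) ≤
      R * ((2 * ({f : (𝓞 F)[X] | Fam g B W f₁ S P f ∧ Mono f}.ncard : ℝ)) *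
      ((W * Q : ℕ) : ℝ) ^ (2 * g * dg F)) :=
    c4.trans (mul_le_mul_of_nonneg_left (mul_le_mul_of_nonneg_right c6 hP0.le) hRr.le)
  rw [one_div_mul_eq_div, div_le_iff₀ (by positivity)]
  refine c8.trans (le_of_eq ?_)
  push_cast
  rw [mul_pow]
  ring

end Pool.Agent.H458.RC
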