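import Pool.Graph.R_pool_sql_team_seeded_63374d34.N352.PF.All

/-!
# Medium prime ideals in the sieve, with an arbitrary constant

After `N352/PF/SML.lean` (helper99).
-/

set_option autoImplicit false
set_option linter.all false

open Polynomial NumberField IsDedekindDomain

namespace Pool.Agent.H458.RC

open Pool.Agent.N352.PF
open Pool.Agent.N352.PF.SML99 (cc one_prime)
open Pool.Agent.N352.PJ (dd pol dis Dy D2)

theorem smlk (F : Type) [Field F] [NumberField F] (g : ℕ) (hg : 1 ≤ g) (R : ℕ) :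
    ∃ M C : ℕ, 1 ≤ C ∧ ∀ (B W : ℕ) (A : Fin (2 * g) → 𝓞 F), 0 < W → C * W ≤ B →
    R * {a ∈ Bx g B W A | ∃ v : HeightOneSpectrum (𝓞 F), M < nv v ∧ nv v ^ 2 < B ^ dg F ∧
      (W : 𝓞 F) ∉ v.asIdeal ∧ dis a ∈ v.asIdeal ^ 2}.ncard ≤ (Bx g B W A).ncard := by
  classical
  have h3 : S_LD := Pool.Agent.N189.PF.ld
  obtain ⟨C, hC⟩ := Pool.Agent.N75.PF.cu F
  obtain ⟨C₂, h1C, hC2⟩ := bxT F g
  obtain ⟨h51, h52, h53⟩ := Pool.Agent.N195.PF.pf F
  set K : ℕ := cc g * (2 * C) ^ (2 * g) * C₂ with hK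
  have hε : (0 : ℝ) < 1 / (((R : ℝ) + 1) * ((K : ℝ) + 1)) := by positivity
  obtain ⟨M₀, hM₀⟩ := Pool.Agent.N195.PF.pr F _ hε
  set M : ℕ := max M₀ ((2 * g + 1).factorial ^ dg F) with hM
  refine ⟨M, C₂, h1C, fun B W A hW hWB => ?_⟩
  set U : Set (Fin (2 * g) → 𝓞 F) := {a ∈ Bx g B W A | ∃ v : HeightOneSpectrum (𝓞 F), M < nv v ∧
    nv v ^ 2 < B ^ dg F ∧ (W : 𝓞 F) ∉ v.asIdeal ∧ dis a ∈ v.asIdeal ^ 2} with hU
  have hBf : (Bx g B W A).Finite := (hC2 B W A hW hWB).1
  set X : ℕ := (Bx g B W A).ncard with hX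
  set I : Finset (HeightOneSpectrum (𝓞 F)) := (h51 (B ^ dg F)).toFinset.filter
    (fun v => M < nv v ∧ nv v ^ 2 < B ^ dg F ∧ (W : 𝓞 F) ∉ v.asIdeal) with hI
  have hVf : ∀ v : HeightOneSpectrum (𝓞 F), {a ∈ Bx g B W A | dis a ∈ v.asIdeal ^ 2}.Finite :=
    fun v => hBf.subset fun a ha => ha.1
  have hsub : U ⊆ ↑(I.biUnion fun v => (hVf v).toFinset) := by
    rintro a ⟨ha, v, hMv, hvB, hvW, hd⟩
    simp only [Finset.coe_biUnion, Set.mem_iUnion, Finset.mem_coe]
    refine ⟨v, ?_, ?_⟩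
    · rw [hI, Finset.mem_filter, Set.Finite.mem_toFinset]
      refine ⟨?_, hMv, hvB, hvW⟩
      have : nv v ≤ nv v ^ 2 := Nat.le_self_pow (by norm_num) _
      show nv v ≤ B ^ dg F
      exact this.trans hvB.le
    · rw [Set.Finite.mem_toFinset]
      exact ⟨ha, hd⟩
  have hU1 : U.ncard ≤ ∑ v ∈ I, {a ∈ Bx g B W A | dis a ∈ v.asIdeal ^ 2}.ncard := by
    have h3 := Set.ncard_le_ncard hsub (Finset.finite_toSet _)
    rw [Set.ncard_coe_finset] at h3
    refine h3.trans (Finset.card_biUnion_le.trans (Finset.sum_le_sum fun v _ => ?_))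
    rw [Set.ncard_eq_toFinset_card _ (hVf v)]
  have hU2 : (U.ncard : ℝ) ≤ K * X * (1 / (((R : ℝ) + 1) * ((K : ℝ) + 1))) := by
    calc (U.ncard : ℝ) ≤ ∑ v ∈ I, ({a ∈ Bx g B W A | dis a ∈ v.asIdeal ^ 2}.ncard : ℝ) := by
          exact_mod_cast hU1
      _ ≤ ∑ v ∈ I, (K * X : ℝ) * (1 / ((nv v : ℝ) ^ 2)) := by
          refine Finset.sum_le_sum fun v hv => ?_
          rw [hI, Finset.mem_filter] at hv
          obtain ⟨_, hMv, hvB, hvW⟩ := hv
          have hv2 : 2 ≤ nv v := h53 v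
          have hfac : ((2 * g + 1).factorial : 𝓞 F) ∉ v.asIdeal := by
            intro hcon
            have h6 := h52 v _ (Nat.factorial_pos _) hcon
            have h7 : (2 * g + 1).factorial ^ dg F ≤ M := le_max_right _ _
            omega
          have h4 := one_prime hC hg hC2 h3 A h1C hW hWB (v := v) (by omega) hfac hvB hvW
          have h5 : ({a ∈ Bx g B W A | dis a ∈ v.asIdeal ^ 2}.ncard : ℝ) * (nv v : ℝ) ^ 2 ≤
              K * X := by
            rw [hK, hX]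
            exact_mod_cast h4
          have h6 : (0 : ℝ) < (nv v : ℝ) ^ 2 := by
            have : 0 < nv v := by omega
            positivity
          rw [mul_one_div, le_div_iff₀ h6]
          exact h5
      _ = (K * X : ℝ) * ∑ v ∈ I, (1 / ((nv v : ℝ) ^ 2)) := by
          rw [Finset.mul_sum]
      _ ≤ K * X * (1 / (((R : ℝ) + 1) * ((K : ℝ) + 1))) := by
          refine mul_le_mul_of_nonneg_left ?_ (by positivity)
          apply hM₀ I
          intro v hv
          rw [hI, Finset.mem_filter] at hv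
          exact lt_of_le_of_lt (le_max_left _ _) hv.2.1
  have hfin : (R : ℝ) * (U.ncard : ℝ) ≤ X := by
    have hX0 : (0 : ℝ) ≤ X := by positivity
    have hK0 : (0 : ℝ) ≤ K := by positivity
    have hR0 : (0 : ℝ) ≤ R := by positivity
    calc (R : ℝ) * (U.ncard : ℝ) ≤ R * (K * X * (1 / (((R : ℝ) + 1) * ((K : ℝ) + 1)))) :=
          mul_le_mul_of_nonneg_left hU2 hR0
      _ = (R / ((R : ℝ) + 1)) * (K / ((K : ℝ) + 1)) * X := by field_simp
      _ ≤ 1 * 1 * X := by
          refine mul_le_mul_of_nonneg_right ?_ hX0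
          refine mul_le_mul ?_ ?_ (by positivity) (by norm_num)
          · rw [div_le_one (by positivity)]
            linarith
          · rw [div_le_one (by positivity)]
            linarith
      _ = X := by ring
  exact_mod_cast hfin

end Pool.Agent.H458.RC
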